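import Pool.Agent.W198.TC.Stms3
import Pool.Agent.H343R2.EFb
import Pool.Agent.H370R2.DirGood
import Pool.Agent.H370R2.PC3

/-!
# The explicit formula on the Riemann hypothesis (`TC.S_EFR`)
-/

set_option autoImplicit false

open Complex Filter Topology Set MeasureTheory

namespace Pool.Agent.W930.TCEFR

open H370 H343 TC

/-- on RH a zero in the strip is `1/2 + i im` -/
lemma rh_line (hRH : RiemannHypothesis) {U1 U2 : ℝ} (hU : 1 ≤ U1) {s : ℂ}
    (hs : s ∈ zset riemannZeta U1 U2) : (1 / 2 : ℂ) + (s.im : ℂ) * I = s := by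
  obtain ⟨h1, h2, h3, h4, h5⟩ := hs
  have him : 0 < s.im := by linarith
  have h6 : s.re = 1 / 2 := by
    refine hRH s h5 ?_ ?_
    · rintro ⟨n, hn⟩
      have h7 : s.im = 0 := by rw [hn]; simp
      linarith
    · intro h7
      rw [h7] at him
      simp at him
  apply Complex.ext
  · simp [h6]
  · simp

lemma sum_ordz (hRH : RiemannHypothesis) {U1 U2 : ℝ} (hU : 1 ≤ U1) {M : Type*}
    [AddCommMonoid M] (f : ℝ → M) :
    ∑ g ∈ ordz U1 U2, f g = ∑ s ∈ Zf riemannZeta U1 U2, f s.im := by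
  unfold ordz
  refine Finset.sum_image ?_
  intro a ha b hb hab
  have ha' := rh_line hRH hU ((mem_Zf H370.good_zeta hU).mp ha)
  have hb' := rh_line hRH hU ((mem_Zf H370.good_zeta hU).mp hb)
  rw [← ha', ← hb', hab]

lemma mu_im (hRH : RiemannHypothesis) {U1 U2 : ℝ} (hU : 1 ≤ U1) {s : ℂ}
    (hs : s ∈ Zf riemannZeta U1 U2) : mu s.im = mult riemannZeta s := by
  unfold mu
  rw [rh_line hRH hU ((mem_Zf H370.good_zeta hU).mp hs)]

lemma FF_eq (hRH : RiemannHypothesis) {U1 U2 : ℝ} (hU : 1 ≤ U1) (u t : ℝ) :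
    FF (ordz U1 U2) mu u t =
      cexp (-(((u * t : ℝ) : ℂ) * I)) * AAb 1 riemannZeta U1 U2 u t := by
  unfold FF AAb
  rw [finsum_Zf H370.good_zeta hU, sum_ordz hRH hU, Finset.mul_sum]
  refine Finset.sum_congr rfl fun s hs => ?_
  rw [mu_im hRH hU hs]
  have hl := rh_line hRH hU ((mem_Zf H370.good_zeta hU).mp hs)
  have h1 : s - 1 / 2 = (s.im : ℂ) * I := by
    rw [← hl]; simp
  have h2 : cexp (-(((u * t : ℝ) : ℂ) * I)) * hhb 1 u t s =
      (Real.exp (-(s.im - t) ^ 2 / 2) : ℂ) * cexp (((u * (s.im - t) : ℝ) : ℂ) * I) := by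
    unfold hhb
    rw [h1, ← Complex.exp_add, ← Complex.exp_add, Complex.ofReal_exp, ← Complex.exp_add]
    congr 1
    push_cast
    ring_nf
    simp only [I_sq]
    ring
  rw [show cexp (-(((u * t : ℝ) : ℂ) * I)) * ((mult riemannZeta s : ℂ) * hhb 1 u t s) =
    (mult riemannZeta s : ℂ) * (cexp (-(((u * t : ℝ) : ℂ) * I)) * hhb 1 u t s) by ring, h2]
  push_cast
  ring

/-- the prime side -/
lemma PPb_one (a : ℕ → ℂ) (u t : ℝ) : PPb 1 a u t = PP a u t := by
  unfold PPb PP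
  simp only [mul_one]

lemma pterm_lam (u t : ℝ) (n : ℕ) :
    ((lam n * gs (u - Real.log n) : ℝ) : ℂ) * cexp (((-(t * Real.log n) : ℝ) : ℂ) * I) =
      cexp (-(((u * t : ℝ) : ℂ) * I)) * ((1 / Real.sqrt (2 * Real.pi) : ℝ) : ℂ) *
        pterm (fun n => (ArithmeticFunction.vonMangoldt n : ℂ)) u t n := by
  unfold lam gs pterm
  have h1 : cexp (((-(t * Real.log n) : ℝ) : ℂ) * I) =
      cexp (-(((u * t : ℝ) : ℂ) * I)) * cexp (I * t * (u - Real.log n)) := by
    rw [← Complex.exp_add]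
    congr 1
    push_cast
    ring
  rw [h1]
  push_cast
  field_simp

lemma sum_pterm (u t : ℝ) (X : ℕ) :
    ∑ n ∈ Finset.Icc 2 X, ((lam n * gs (u - Real.log n) : ℝ) : ℂ) *
        cexp (((-(t * Real.log n) : ℝ) : ℂ) * I) =
      cexp (-(((u * t : ℝ) : ℂ) * I)) * ((1 / Real.sqrt (2 * Real.pi) : ℝ) : ℂ) *
        ∑ n ∈ Finset.Icc 1 X,
          pterm (fun n => (ArithmeticFunction.vonMangoldt n : ℂ)) u t n := by
  rw [Finset.mul_sum]
  simp_rw [← pterm_lam]
  refine Finset.sum_subset (Finset.Icc_subset_Icc_left (by norm_num)) ?_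
  intro n hn hn2
  rw [Finset.mem_Icc] at hn hn2
  have h1 : n = 1 := by omega
  subst h1
  simp [lam]

theorem efr : TC.S_EFR := by
  intro hRH
  have hF : GoodL riemannZeta := H370.good_zeta
  obtain ⟨C1, T0, hC1, hT0, h1⟩ := explicit_formula_zeta hF 1 1 zero_le_one zero_lt_one
  obtain ⟨C2, hC2, hZ⟩ := Zg_le hF
  obtain ⟨C3, hC3, hN⟩ := NN_crude hF
  set S := ∑' n : ℕ, 1 / (n : ℝ) ^ 2 with hS
  have hS0 : 0 ≤ S := tsum_nonneg fun n => by positivity
  have ha : ∀ n, ‖((ArithmeticFunction.vonMangoldt n : ℝ) : ℂ)‖ ≤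
      ArithmeticFunction.vonMangoldt n := fun n => by
    rw [Complex.norm_real, Real.norm_eq_abs, abs_of_nonneg ArithmeticFunction.vonMangoldt_nonneg]
  set C := C1 + C2 + C3 + 2 * S * Real.exp 4 with hC
  have hSe : 0 ≤ 2 * S * Real.exp 4 := by positivity
  refine ⟨C, T0, by positivity, hT0, fun T hT => ?_⟩
  obtain ⟨U1, U2, hU1, hU1', hU2, hU2', h2⟩ := h1 T hT
  have hT10 : 10 ≤ T := hT0.trans hT
  have hU : 1 ≤ U1 := by linarith
  have hlog : 0 ≤ Real.log T := Real.log_nonneg (by linarith)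
  refine ⟨U1, U2, hU1, hU1', hU2, hU2', ?_⟩
  constructor
  · intro g hg
    unfold ordz at hg
    obtain ⟨s, hs, rfl⟩ := Finset.mem_image.mp hg
    have hs' := (mem_Zf hF hU).mp hs
    exact ⟨by linarith [hs'.2.2.1], by linarith [hs'.2.2.2.1]⟩
  · intro g hg
    unfold ordz at hg
    obtain ⟨s, hs, rfl⟩ := Finset.mem_image.mp hg
    rw [mu_im hRH hU hs]
    have hs' := (mem_Zf hF hU).mp hs
    exact H370.Loc.mult_pos' hF (by linarith [hs'.2.2.1]) hs'.2.2.2.2
  · rw [sum_ordz hRH hU (fun g => (mu g : ℝ))]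
    have h3 : ∑ s ∈ Zf riemannZeta U1 U2, (mu s.im : ℝ) = (NN riemannZeta U1 U2 : ℝ) := by
      rw [NN_eq hF hU, Nat.cast_sum]
      exact Finset.sum_congr rfl fun s hs => by rw [mu_im hRH hU hs]
    rw [h3]
    refine (hN T (by linarith) U1 U2 hU1 hU2').trans ?_
    have h4 : 0 ≤ T * Real.log T := by positivity
    have h5 : C3 ≤ C := by rw [hC]; linarith
    calc C3 * (T * Real.log T) ≤ C * (T * Real.log T) := by gcongr
      _ = C * T * Real.log T := by ring
  · intro t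
    rw [sum_ordz hRH hU (fun g => (mu g : ℝ) * Real.exp (-(g - t) ^ 2 / 2))]
    have h3 : ∑ s ∈ Zf riemannZeta U1 U2, (mu s.im : ℝ) * Real.exp (-(s.im - t) ^ 2 / 2) =
        Zg riemannZeta U1 U2 t := by
      unfold Zg
      exact Finset.sum_congr rfl fun s hs => by rw [mu_im hRH hU hs]
    rw [h3]
    refine (hZ T (by linarith) U1 U2 hU1 hU2' t).trans ?_
    have h5 : C2 ≤ C := by rw [hC]; linarith
    gcongr
  · intro u t D X hu huT ht1 ht2 hD hX
    have h3 := h2 u t hu (by linarith) ht1 ht2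
    have h4 := PP_trunc ha u t D X hD hX
    rw [FF_eq hRH hU, sum_pterm]
    rw [PPb_one] at h3
    simp only [mul_one] at h3
    set P := PP (fun n => (ArithmeticFunction.vonMangoldt n : ℂ)) u t with hP
    set Q := ∑ n ∈ Finset.Icc 1 X,
          pterm (fun n => (ArithmeticFunction.vonMangoldt n : ℂ)) u t n with hQ
    set A := AAb 1 riemannZeta U1 U2 u t with hA
    set e := cexp (-(((u * t : ℝ) : ℂ) * I)) with he
    have hen : ‖e‖ = 1 := by
      rw [he, show -(((u * t : ℝ) : ℂ) * I) = ((-(u * t) : ℝ) : ℂ) * I by push_cast; ring,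
        Complex.norm_exp_ofReal_mul_I]
    have he2 : e * cexp (I * u * t) = 1 := by
      rw [he, ← Complex.exp_add]
      have : -(((u * t : ℝ) : ℂ) * I) + I * u * t = 0 := by push_cast; ring
      rw [this, Complex.exp_zero]
    set c : ℝ := 1 / Real.sqrt (2 * Real.pi) with hc
    have hc0 : 0 ≤ c := by positivity
    have hc1 : c ≤ 1 := by
      rw [hc, div_le_one (by positivity)]
      rw [Real.one_le_sqrt]
      have := Real.pi_gt_three
      linarith
    have hid : e * A - (((Real.log T * gs u : ℝ) : ℂ) - e * (c : ℂ) * Q) =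
        e * (A - (c : ℂ) * (Real.log T * cexp (I * u * t) * Real.exp (-u ^ 2 / 2) - P)) -
          e * (c : ℂ) * (P - Q) := by
      have h5 : ((Real.log T * gs u : ℝ) : ℂ) =
          (e * cexp (I * u * t)) * ((c : ℂ) * Real.log T * Real.exp (-u ^ 2 / 2)) := by
        rw [he2, one_mul, hc]
        unfold gs
        push_cast
        field_simp
      rw [h5]
      ring
    rw [hid]
    have h6 : ‖e * (A - (c : ℂ) * (Real.log T * cexp (I * u * t) *
        Real.exp (-u ^ 2 / 2) - P))‖ ≤ C1 * Real.exp (-u) := by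
      rw [norm_mul, hen, one_mul]
      exact h3
    have h7 : ‖e * (c : ℂ) * (P - Q)‖ ≤ 2 * S * Real.exp 4 * Real.exp (2 * u - D ^ 2 / 4) := by
      rw [norm_mul, norm_mul, hen, one_mul, Complex.norm_real, Real.norm_of_nonneg hc0]
      have h8 : Real.exp (4 + 2 * u) * Real.exp (-D ^ 2 / 4) =
          Real.exp 4 * Real.exp (2 * u - D ^ 2 / 4) := by
        rw [← Real.exp_add, ← Real.exp_add]; congr 1; ring
      rw [h8] at h4
      calc c * ‖P - Q‖ ≤ 1 * (2 * S * (Real.exp 4 * Real.exp (2 * u - D ^ 2 / 4))) := by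
            gcongr
        _ = _ := by ring
    refine (norm_sub_le _ _).trans ((add_le_add h6 h7).trans ?_)
    have h9 : C1 ≤ C := by rw [hC]; linarith
    have h10 : 2 * S * Real.exp 4 ≤ C := by rw [hC]; linarith
    calc C1 * Real.exp (-u) + 2 * S * Real.exp 4 * Real.exp (2 * u - D ^ 2 / 4) ≤
        C * Real.exp (-u) + C * Real.exp (2 * u - D ^ 2 / 4) := by gcongr
      _ = _ := by ring

end Pool.Agent.W930.TCEFR
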