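import Pool.Agent.W275.US.Stm

/-!
A log-concave density depending only on the norms of the blocks is monotone in them.
-/

set_option autoImplicit false

namespace Pool.Agent.W930.USMono

open MeasureTheory Set Pool.Agent.W275.US
open scoped ENNReal InnerProductSpace

theorem step {b d : ℕ} (p : Fin b → Seminorm ℝ (E d)) (ρ : X b d → ℝ) (h0 : ∀ x, 0 ≤ ρ x)
    (hl : ∀ x y : X b d, ∀ t : ℝ, 0 < t → t < 1 →
      ρ x ^ (1 - t) * ρ y ^ t ≤ ρ ((1 - t) • x + t • y)) (hR : Rad p ρ) (y : X b d) (i : Fin b)
    (t : ℝ) (ht0 : 0 ≤ t) (ht1 : t ≤ 1) :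
    ρ y ≤ ρ (cat fun j => if j = i then t • blk j y else blk j y) := by
  rcases eq_or_lt_of_le ht1 with rfl | ht
  · have : (cat fun j => if j = i then (1 : ℝ) • blk j y else blk j y) = y := by
      conv_rhs => rw [← cat_blk y]
      congr 1
      funext j
      split_ifs <;> simp
    rw [this]
  · set y' : X b d := cat fun j => if j = i then -blk j y else blk j y with hy'
    have h1 : ρ y' = ρ y := by
      refine hR _ _ fun j => ?_
      rw [hy', blk_cat]
      split_ifs
      · rw [map_neg_eq_map]
      · rfl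
    have h2 : (1 - (1 - t) / 2) • y + ((1 - t) / 2) • y' =
        cat fun j => if j = i then t • blk j y else blk j y := by
      ext q
      show (1 - (1 - t) / 2) * y q + ((1 - t) / 2) * ((if q.1 = i then -blk q.1 y else blk q.1 y) :
        E d) q.2 = ((if q.1 = i then t • blk q.1 y else blk q.1 y) : E d) q.2
      split_ifs with h
      · show (1 - (1 - t) / 2) * y q + ((1 - t) / 2) * -(y (q.1, q.2)) = t * y (q.1, q.2)
        ring
      · show (1 - (1 - t) / 2) * y q + ((1 - t) / 2) * (y (q.1, q.2)) = y (q.1, q.2)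
        ring
    have h3 := hl y y' ((1 - t) / 2) (by linarith) (by linarith)
    rw [h2, h1] at h3
    rcases (h0 y).lt_or_eq with h4 | h4
    · rw [← Real.rpow_add h4] at h3
      have h5 : 1 - (1 - t) / 2 + (1 - t) / 2 = 1 := by ring
      rwa [h5, Real.rpow_one] at h3
    · rw [← h4]
      exact h0 _

theorem main : S_mono := by
  intro b d p hp ρ h0 hl hR x y hxy
  classical
  let t : Fin b → ℝ := fun j => if p j (blk j y) = 0 then 1 else p j (blk j x) / p j (blk j y)
  have ht : ∀ j, 0 ≤ t j ∧ t j ≤ 1 ∧ t j * p j (blk j y) = p j (blk j x) := by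
    intro j
    show 0 ≤ (if p j (blk j y) = 0 then 1 else p j (blk j x) / p j (blk j y)) ∧
      (if p j (blk j y) = 0 then 1 else p j (blk j x) / p j (blk j y)) ≤ 1 ∧
      (if p j (blk j y) = 0 then 1 else p j (blk j x) / p j (blk j y)) * p j (blk j y) =
        p j (blk j x)
    have hx0 := apply_nonneg (p j) (blk j x)
    have hy0 := apply_nonneg (p j) (blk j y)
    have hj := hxy j
    by_cases h : p j (blk j y) = 0
    · rw [if_pos h, h]
      rw [h] at hj
      exact ⟨zero_le_one, le_rfl, by linarith⟩
    · rw [if_neg h]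
      have hpos : 0 < p j (blk j y) := lt_of_le_of_ne hy0 (Ne.symm h)
      exact ⟨div_nonneg hx0 hy0, (div_le_one hpos).2 hj, div_mul_cancel₀ _ h⟩
  have key : ∀ S : Finset (Fin b),
      ρ y ≤ ρ (cat fun j => if j ∈ S then t j • blk j y else blk j y) := by
    intro S
    induction S using Finset.induction_on with
    | empty => simp [cat_blk]
    | insert i S hi ih =>
      refine ih.trans ((step p ρ h0 hl hR _ i (t i) (ht i).1 (ht i).2.1).trans (le_of_eq ?_))
      congr 2
      funext j
      rw [blk_cat]
      by_cases hji : j = i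
      · subst hji
        simp [hi]
      · simp [hji]
  refine (key Finset.univ).trans (le_of_eq (hR _ _ fun j => ?_))
  rw [blk_cat, if_pos (Finset.mem_univ j), map_smul_eq_mul, Real.norm_eq_abs,
    abs_of_nonneg (ht j).1]
  exact (ht j).2.2

end Pool.Agent.W930.USMono
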