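import Pool.Agent.W749.NM.Stm

set_option autoImplicit false

namespace Pool.Agent.W930.NMCondN

open MvPolynomial Pool.Agent.W428.MOT Pool.Agent.W749.NM
open Pool.Agent.W426.SM (AffInd gord ford IsRay face)

lemma gord_le {n r : ℕ} (m : Fin r → Fin n → ℕ) (u : Fin n → ℕ) (j : Fin r) :
    gord m u ≤ ∑ i, u i * m j i := by
  unfold gord
  exact ciInf_le (OrderBot.bddBelow _) j

lemma prod_shift {F : Type} [Field F] {n : ℕ} (u b : Fin n → ℕ) (y : Fin n → PowerSeries F) :
    ∏ i, (PowerSeries.X ^ u i * y i) ^ b i = PowerSeries.X ^ (∑ i, u i * b i) * ∏ i, y i ^ b i := by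
  simp only [mul_pow, ← pow_mul]
  rw [Finset.prod_mul_distrib, Finset.prod_pow_eq_pow_sum]

lemma aeval_sp {K : Type} [Field K] {n r : ℕ} (A : Fin n → ℕ) (m : Fin r → Fin n → ℕ)
    (c : Fin r → K) (e : ℕ) (u : Fin n → ℕ) (y : Fin n → PowerSeries (AlgebraicClosure K)) :
    aeval (fun i => PowerSeries.X ^ u i * y i) (sp A m c e) =
      PowerSeries.X ^ ford A m e u * ((∏ i, y i ^ A i) * gser m (cb c) (del m u) y ^ e) := by
  unfold sp
  rw [map_mul, map_pow, map_prod, map_sum]
  simp only [map_pow, aeval_X, map_mul, map_prod, algHom_C]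
  rw [prod_shift]
  have h1 : ∀ j, algebraMap K (PowerSeries (AlgebraicClosure K)) (c j) *
      ∏ i, (PowerSeries.X ^ u i * y i) ^ m j i =
      PowerSeries.X ^ gord m u * (PowerSeries.C (cb c j) * PowerSeries.X ^ del m u j *
        ∏ i, y i ^ m j i) := by
    intro j
    rw [prod_shift]
    have h2 : ∑ i, u i * m j i = gord m u + del m u j := by
      unfold del
      rw [Nat.add_sub_cancel' (gord_le m u j)]
    rw [h2, pow_add]
    have h3 : algebraMap K (PowerSeries (AlgebraicClosure K)) (c j) = PowerSeries.C (cb c j) :=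
      PowerSeries.algebraMap_apply
    rw [h3]
    ring
  simp only [h1]
  rw [← Finset.mul_sum]
  unfold ford gser
  rw [mul_pow, pow_add, ← pow_mul, mul_comm e]
  ring

/-- the order of `P G ^ e` is `p` iff `e l = p` for the order `l` of `G` -/
theorem ordN {F : Type} [Field F] (P G : PowerSeries F) (e p : ℕ) (he : 0 < e)
    (hP : PowerSeries.constantCoeff P ≠ 0) :
    ((∀ k < p, PowerSeries.coeff k (P * G ^ e) = 0) ∧ PowerSeries.coeff p (P * G ^ e) ≠ 0) ↔
      ∃ l, e * l = p ∧ (∀ k < l, PowerSeries.coeff k G = 0) ∧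
        PowerSeries.constantCoeff P * (PowerSeries.coeff l G) ^ e ≠ 0 := by
  constructor
  · rintro ⟨h, hp⟩
    have hG : ∃ l, PowerSeries.coeff l G ≠ 0 := by
      by_contra hcon
      push Not at hcon
      have h0 : G = 0 := by
        ext k
        simpa using hcon k
      rw [h0, zero_pow he.ne'] at hp
      simp at hp
    classical
    set l := Nat.find hG with hl
    have hl0 : PowerSeries.coeff l G ≠ 0 := Nat.find_spec hG
    have hl1 : ∀ k < l, PowerSeries.coeff k G = 0 := by
      intro k hk
      have := Nat.find_min hG hk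
      simpa using this
    obtain ⟨U, hU⟩ := PowerSeries.X_pow_dvd_iff.mpr hl1
    have hU0 : PowerSeries.coeff l G = PowerSeries.constantCoeff U := by
      rw [hU, PowerSeries.coeff_X_pow_mul']
      simp
    have hPG : P * G ^ e = PowerSeries.X ^ (l * e) * (P * U ^ e) := by
      rw [hU, mul_pow, ← pow_mul]
      ring
    have hc : PowerSeries.constantCoeff (P * U ^ e) =
        PowerSeries.constantCoeff P * (PowerSeries.coeff l G) ^ e := by
      rw [map_mul, map_pow, hU0]
    have hne : PowerSeries.constantCoeff P * (PowerSeries.coeff l G) ^ e ≠ 0 :=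
      mul_ne_zero hP (pow_ne_zero _ hl0)
    have hle : l * e ≤ p := by
      by_contra hlt
      rw [hPG, PowerSeries.coeff_X_pow_mul', if_neg hlt] at hp
      exact hp rfl
    have hge : p ≤ l * e := by
      by_contra hlt
      have h2 := h (l * e) (by omega)
      rw [hPG, PowerSeries.coeff_X_pow_mul', if_pos le_rfl, Nat.sub_self,
        PowerSeries.coeff_zero_eq_constantCoeff_apply, hc] at h2
      exact hne h2
    exact ⟨l, by rw [mul_comm]; omega, hl1, hne⟩
  · rintro ⟨l, hlp, hl1, h1⟩
    obtain ⟨U, hU⟩ := PowerSeries.X_pow_dvd_iff.mpr hl1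
    have hU0 : PowerSeries.coeff l G = PowerSeries.constantCoeff U := by
      rw [hU, PowerSeries.coeff_X_pow_mul']
      simp
    have hPG : P * G ^ e = PowerSeries.X ^ p * (P * U ^ e) := by
      rw [hU, mul_pow, ← pow_mul, ← hlp, mul_comm l e]
      ring
    refine ⟨fun k hk => ?_, ?_⟩
    · rw [hPG, PowerSeries.coeff_X_pow_mul', if_neg (by omega)]
    · rw [hPG, PowerSeries.coeff_X_pow_mul', if_pos le_rfl, Nat.sub_self,
        PowerSeries.coeff_zero_eq_constantCoeff_apply, map_mul, map_pow, ← hU0]
      exact h1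

theorem main : S_CondN := by
  intro K _ _ n r A m c e x J hJ hr he N hN u hu huN y hy
  rw [aeval_sp]
  set F := ford A m e u with hF
  set G := gser m (cb c) (del m u) (arc y) with hG
  set P : PowerSeries (AlgebraicClosure K) := ∏ i, arc y i ^ A i with hP
  have harc : ∀ i, PowerSeries.constantCoeff (arc y i) = y (i, 0) := by
    intro i
    rw [← PowerSeries.coeff_zero_eq_constantCoeff_apply]
    unfold arc
    rw [PowerSeries.coeff_mk, dif_pos (by omega)]
    rfl
  have hPc : PowerSeries.constantCoeff P = ∏ i, y (i, 0) ^ A i := by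
    rw [hP, map_prod]
    simp only [map_pow, harc]
  by_cases hFN : F ≤ N
  · have hne : PowerSeries.constantCoeff P ≠ 0 := by
      rw [hPc]
      refine Finset.prod_ne_zero_iff.2 fun i _ => ?_
      rcases Nat.eq_zero_or_pos (A i) with h0 | h0
      · rw [h0, pow_zero]
        exact one_ne_zero
      · refine pow_ne_zero _ (hy.2.1 i ?_)
        have h1 : u i ≤ u i * A i := Nat.le_mul_of_pos_right _ h0
        have h2 : u i * A i ≤ ∑ i, u i * A i :=
          Finset.single_le_sum (f := fun i => u i * A i) (fun _ _ => Nat.zero_le _)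
            (Finset.mem_univ i)
        have h3 : ∑ i, u i * A i ≤ F := by
          rw [hF]
          unfold ford
          exact Nat.le_add_right _ _
        omega
    have key := ordN P G e (N - F) he hne
    have h4 : ((∀ j < N, PowerSeries.coeff j (PowerSeries.X ^ F * (P * G ^ e)) = 0) ∧
        PowerSeries.coeff N (PowerSeries.X ^ F * (P * G ^ e)) ≠ 0) ↔
        ((∀ k < N - F, PowerSeries.coeff k (P * G ^ e) = 0) ∧
          PowerSeries.coeff (N - F) (P * G ^ e) ≠ 0) := by
      refine and_congr ?_ ?_
      · constructor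
        · intro h5 k hk
          have h6 := h5 (k + F) (by omega)
          rw [PowerSeries.coeff_X_pow_mul', if_pos (by omega), Nat.add_sub_cancel] at h6
          exact h6
        · intro h5 j hj
          rw [PowerSeries.coeff_X_pow_mul']
          split_ifs with h6
          · exact h5 (j - F) (by omega)
          · rfl
      · rw [PowerSeries.coeff_X_pow_mul', if_pos hFN]
    rw [h4, key, hPc]
    constructor
    · rintro ⟨l, h5, h6, h7⟩
      exact ⟨l, by omega, h6, h7⟩
    · rintro ⟨l, h5, h6, h7⟩
      exact ⟨l, by omega, h6, h7⟩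
  · constructor
    · rintro ⟨-, h5⟩
      rw [PowerSeries.coeff_X_pow_mul', if_neg hFN] at h5
      exact absurd rfl h5
    · rintro ⟨l, h5, -⟩
      omega

end Pool.Agent.W930.NMCondN
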