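import Pool.Agent.W894.HT.Defs

set_option autoImplicit false
set_option linter.unusedVariables false

/-! Adding one vertex to a tournament: Hamiltonian cycles and Hamiltonian paths. -/

namespace Pool.Agent.W930.HTAddw

open Pool.Agent.W894.HT

/-! ### entries -/

lemma en_eq (A : List (List Bool)) (i j : ℕ) : en A i j = ((A[i]?.getD [])[j]?).getD false := by
  unfold en
  rw [List.getD_eq_getElem?_getD, List.getD_eq_getElem?_getD]

lemma row_lt (A : List (List Bool)) (z i : ℕ) (hi : i < A.length) :
    (addW A z)[i]? = some (A[i] ++ [!decide (i = z)]) := by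
  unfold addW
  rw [List.getElem?_append_left (by simpa using hi)]
  simp [hi]

lemma row_n (A : List (List Bool)) (z : ℕ) :
    (addW A z)[A.length]? = some (((List.range A.length).map fun j => decide (j = z)) ++ [false]) := by
  unfold addW
  rw [List.getElem?_append_right (by simp)]
  simp

lemma len (A : List (List Bool)) (z : ℕ) : (addW A z).length = A.length + 1 := by
  simp [addW]

lemma en_lt {A : List (List Bool)} (hA : IsTour A) (z : ℕ) {i j : ℕ} (hi : i < A.length)
    (hj : j < A.length) : en (addW A z) i j = en A i j := by
  have hr : (A[i]).length = A.length := hA.1 _ (List.getElem_mem hi)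
  rw [en_eq, en_eq, row_lt A z i hi, Option.getD_some, List.getElem?_append_left (by rw [hr]; exact hj),
    List.getElem?_eq_getElem hi, Option.getD_some]

lemma en_last {A : List (List Bool)} (hA : IsTour A) (z : ℕ) {i : ℕ} (hi : i < A.length) :
    en (addW A z) i A.length = !decide (i = z) := by
  have hr : (A[i]).length = A.length := hA.1 _ (List.getElem_mem hi)
  rw [en_eq, row_lt A z i hi, Option.getD_some, List.getElem?_append_right (by rw [hr])]
  simp [hr]

lemma en_n {A : List (List Bool)} (z : ℕ) {j : ℕ} (hj : j < A.length) :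
    en (addW A z) A.length j = decide (j = z) := by
  rw [en_eq, row_n, Option.getD_some, List.getElem?_append_left (by simpa using hj)]
  simp [hj]

lemma en_nn (A : List (List Bool)) (z : ℕ) : en (addW A z) A.length A.length = false := by
  rw [en_eq, row_n, Option.getD_some, List.getElem?_append_right (by simp)]
  simp

theorem tour {A : List (List Bool)} (hA : IsTour A) {z : ℕ} (hz : z < A.length) :
    IsTour (addW A z) := by
  refine ⟨?_, ?_⟩
  · intro r hr
    rw [len]
    unfold addW at hr
    rw [List.mem_append] at hr
    rcases hr with hr | hr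
    · obtain ⟨p, hp, rfl⟩ := List.mem_map.1 hr
      have h1 : p.1 ∈ A := by
        have := List.fst_mem_of_mem_zipIdx hp
        exact this
      rw [List.length_append, hA.1 _ h1]
      rfl
    · rw [List.mem_singleton] at hr
      rw [hr]
      simp
  · intro i hi
    rw [len] at hi
    rcases Nat.lt_succ_iff_lt_or_eq.1 hi with h | h
    · refine ⟨by rw [en_lt hA z h h]; exact (hA.2 i h).1, ?_⟩
      intro j hj hij
      rw [len] at hj
      rcases Nat.lt_succ_iff_lt_or_eq.1 hj with h' | h'
      · rw [en_lt hA z h h', en_lt hA z h' h]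
        exact (hA.2 i h).2 j h' hij
      · subst h'
        rw [en_last hA z h, en_n z h]
    · subst h
      refine ⟨en_nn A z, ?_⟩
      intro j hj hij
      rw [len] at hj
      rcases Nat.lt_succ_iff_lt_or_eq.1 hj with h' | h'
      · rw [en_last hA z h', en_n z h', Bool.not_not]
      · exact absurd h'.symm hij

/-! ### rotations -/

lemma rot_unique {l l' : List ℕ} (hl : l.Nodup) (h : l ~r l') (hh : l.head? = l'.head?) :
    l = l' := by
  obtain ⟨k, hk, hk'⟩ := List.isRotated_iff_mod.1 h
  rcases Nat.eq_zero_or_pos l.length with h0 | h0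
  · have : l = [] := List.length_eq_zero_iff.1 h0
    rw [this] at hk'
    rw [this, ← hk']
    simp
  · have hlt : k % l.length < l.length := Nat.mod_lt _ h0
    rw [← List.rotate_mod] at hk'
    have h1 := List.head?_rotate hlt
    rw [hk', ← hh, List.head?_eq_getElem?] at h1
    have h2 := (List.getElem?_inj h0 hl).1 h1
    rw [← h2, List.rotate_zero] at hk'
    exact hk'

lemma cyc {R : ℕ → ℕ → Prop} {l : List ℕ} {a : ℕ} (h : l.head? = some a) :
    (l ++ [a]).IsChain R ↔ Cycle.Chain R (l : Cycle ℕ) := by
  cases l with
  | nil => simp at h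
  | cons b t =>
    rw [List.head?_cons, Option.some_inj] at h
    subst h
    rw [Cycle.chain_coe_cons]
    rfl

/-- the closed path -/
lemma path {A : List (List Bool)} (hA : IsTour A) (h2 : 2 ≤ A.length) {z : ℕ} (hz : z < A.length)
    {s : List ℕ} (hs : s.Perm (List.range A.length)) (hh : s.head? = some z) :
    (s ++ [A.length] ++ [z]).IsChain (fun i j => en (addW A z) i j = true) ↔
      s.IsChain fun i j => en A i j = true := by
  have hmem : ∀ x ∈ s, x < A.length := fun x hx => List.mem_range.1 (hs.mem_iff.1 hx)
  have hnd : s.Nodup := hs.nodup_iff.2 List.nodup_range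
  rw [List.append_assoc, List.isChain_append]
  constructor
  · rintro ⟨h, -, -⟩
    exact h.imp_of_mem_imp fun a b ha hb hab => by
      rw [en_lt hA z (hmem a ha) (hmem b hb)] at hab
      exact hab
  · intro h
    refine ⟨h.imp_of_mem_imp fun a b ha hb hab => by
      rw [en_lt hA z (hmem a ha) (hmem b hb)]
      exact hab, ?_, ?_⟩
    · rw [List.singleton_append, List.isChain_pair, en_n z hz]
      simp
    · intro x hx y hy
      rw [List.singleton_append, List.head?_cons, Option.mem_some_iff] at hy
      subst hy
      have hxs : x ∈ s := List.mem_of_mem_getLast? hx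
      rw [en_last hA z (hmem x hxs)]
      have hne : x ≠ z := by
        rintro rfl
        cases s with
        | nil => simp at hh
        | cons b t =>
          rw [List.head?_cons, Option.some_inj] at hh
          subst hh
          cases t with
          | nil =>
            have := hs.length_eq
            simp at this
            omega
          | cons c t' =>
            rw [List.getLast?_cons_cons] at hx
            have h3 : b ∈ c :: t' := List.mem_of_mem_getLast? hx
            exact (List.nodup_cons.1 hnd).1 h3
      simp [hne]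

theorem main : S_ADDW := by
  intro A z hA h2 hz
  refine ⟨tour hA hz, ?_⟩
  set n := A.length with hn
  set R' : ℕ → ℕ → Prop := fun i j => en (addW A z) i j = true with hR'
  unfold numHC numHS
  rw [len]
  symm
  -- the map
  have hrot : ∀ s : List ℕ, s.Perm (List.range n) → ∃ l : List ℕ, (s ++ [n]) ~r l ∧
      l.head? = some 0 := by
    intro s hs
    have h0 : 0 ∈ s := hs.mem_iff.2 (List.mem_range.2 (by omega))
    obtain ⟨u, v, rfl⟩ := List.append_of_mem h0
    refine ⟨(0 :: v ++ [n]) ++ u, ?_, by simp⟩
    have := List.isRotated_append (l := u) (l' := 0 :: v ++ [n])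
    rw [List.append_assoc]
    exact this
  have hrange : List.range (n + 1) = List.range n ++ [n] := List.range_succ
  let F : {l : List ℕ // l.Perm (List.range n) ∧ l.head? = some z ∧
      l.IsChain fun i j => en A i j = true} →
      {l : List ℕ // l.Perm (List.range (n + 1)) ∧ l.head? = some 0 ∧
      (l ++ [0]).IsChain fun i j => en (addW A z) i j = true} := fun s =>
    ⟨(hrot s.1 s.2.1).choose, by
      obtain ⟨h1, h3⟩ := (hrot s.1 s.2.1).choose_spec
      refine ⟨?_, h3, ?_⟩
      · refine h1.perm.symm.trans ?_
        rw [hrange]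
        exact s.2.1.append_right _
      · rw [cyc h3]
        have h4 : Cycle.Chain R' ((s.1 ++ [n] : List ℕ) : Cycle ℕ) := by
          rw [← cyc (a := z) (by
            rw [List.head?_append, s.2.2.1]
            rfl)]
          exact (path hA h2 hz s.2.1 s.2.2.1).2 s.2.2.2
        have h5 : ((s.1 ++ [n] : List ℕ) : Cycle ℕ) = ((hrot s.1 s.2.1).choose : Cycle ℕ) :=
          Cycle.coe_eq_coe.2 h1
        rw [h5] at h4
        exact h4⟩
  have hF : ∀ s, (s.1 ++ [n]) ~r (F s).1 := fun s => (hrot s.1 s.2.1).choose_spec.1
  have hnd : ∀ s : List ℕ, s.Perm (List.range n) → (s ++ [n]).Nodup := by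
    intro s hs
    have h1 : (s ++ [n]).Perm (List.range (n + 1)) := by
      rw [hrange]
      exact hs.append_right _
    exact h1.nodup_iff.2 List.nodup_range
  refine Nat.card_eq_of_bijective F ⟨?_, ?_⟩
  · intro s s' hss
    have h1 := hF s
    rw [hss] at h1
    have h3 : (s.1 ++ [n]) ~r (s'.1 ++ [n]) := h1.trans (hF s').symm
    have h4 := rot_unique (hnd s.1 s.2.1) h3 (by
      rw [List.head?_append, List.head?_append, s.2.2.1, s'.2.2.1])
    exact Subtype.ext (List.append_cancel_right h4)
  · rintro ⟨l, hl, hl0, hlc⟩
    have hnl : n ∈ l := hl.mem_iff.2 (List.mem_range.2 (by omega))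
    obtain ⟨u, v, rfl⟩ := List.append_of_mem hnl
    have hper : (v ++ u).Perm (List.range n) := by
      have h3 : (u ++ n :: v).Perm ((v ++ u) ++ [n]) := by
        have h4 : (u ++ n :: v).Perm (n :: (u ++ v)) := List.perm_middle
        refine h4.trans ?_
        refine ((List.perm_append_comm (l₁ := u) (l₂ := v)).cons n).trans ?_
        exact (List.perm_append_singleton n (v ++ u)).symm
      rw [hrange] at hl
      exact (List.perm_append_right_iff _).1 (h3.symm.trans hl)
    have hrt : (u ++ n :: v) ~r ((v ++ u) ++ [n]) := by
      have h3 := List.isRotated_append (l := u ++ [n]) (l' := v)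
      rw [List.append_assoc, List.singleton_append] at h3
      rw [List.append_assoc]
      exact h3
    have hne : v ++ u ≠ [] := by
      intro h0
      rw [h0] at hper
      have := hper.length_eq
      simp at this
      omega
    obtain ⟨h, t, ht⟩ := List.exists_cons_of_ne_nil hne
    have hhead : (v ++ u).head? = some h := by rw [ht]; rfl
    have hcc : Cycle.Chain R' (((v ++ u) ++ [n] : List ℕ) : Cycle ℕ) := by
      rw [cyc hl0] at hlc
      have h5 : ((u ++ n :: v : List ℕ) : Cycle ℕ) = (((v ++ u) ++ [n] : List ℕ) : Cycle ℕ) :=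
        Cycle.coe_eq_coe.2 hrt
      rw [h5] at hlc
      exact hlc
    have hhead' : ((v ++ u) ++ [n]).head? = some h := by
      rw [List.head?_append, hhead]
      rfl
    rw [← cyc hhead'] at hcc
    have hhn : h < n := by
      have : h ∈ v ++ u := by rw [ht]; exact List.mem_cons_self
      exact List.mem_range.1 (hper.mem_iff.1 this)
    have hhz : h = z := by
      rw [List.append_assoc, List.isChain_append] at hcc
      have h6 := hcc.2.1
      rw [List.singleton_append, List.isChain_pair] at h6
      have h7 : en (addW A z) n h = true := h6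
      rw [en_n z hhn] at h7
      simpa using h7
    subst hhz
    have hpc := (path hA h2 hz hper hhead).1 hcc
    refine ⟨⟨v ++ u, hper, hhead, hpc⟩, ?_⟩
    apply Subtype.ext
    have h8 := hF ⟨v ++ u, hper, hhead, hpc⟩
    have h9 : (F ⟨v ++ u, hper, hhead, hpc⟩).1 ~r (u ++ n :: v) := h8.symm.trans hrt.symm
    have h10 : (F ⟨v ++ u, hper, hhead, hpc⟩).1.Nodup :=
      (F ⟨v ++ u, hper, hhead, hpc⟩).2.1.nodup_iff.2 List.nodup_range
    exact rot_unique h10 h9 ((F ⟨v ++ u, hper, hhead, hpc⟩).2.2.1.trans hl0.symm)

end Pool.Agent.W930.HTAddw
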