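import Pool.Agent.W921.VP.DefsC

/-! VP project (helper921), part VP-F2 (helper930). -/

set_option autoImplicit false

namespace Pool.Agent.W930.VPF2

open FirstOrder Set Pool.Agent.W921.VP

/-- the pattern -/
def W (d : ℕ) : Bool := decide (d = 1 ∨ d = 2 ∨ d = 3 ∨ d = 7 ∨ d = 8 ∨ d = 9)

def codeB (β : Bool) (i j : ℕ) : Bool :=
  if j < i then (W (i - j) || (decide (j = 0) && decide (14 ≤ i) && β)) else W (j + 1 - i)

def ix (u v : ℕ) : ℕ := if u % 2 = 0 then u / 2 - 14 else v / 2 - 14

section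

variable {L : FirstOrder.Language.{0, 0}} {M : Type} {K : Set M}

def pYB (t : Out K → Out K) (p p' q q' : Out K) (β : Bool) (u v : ℕ) : Out K × Out K :=
  if u % 2 = 0 then
    (if v % 2 = 0 then (if u < v then (p, t p) else (t p, p))
      else (if codeB β (u / 2) (v / 2) then (p, q) else (p', q')))
  else
    (if v % 2 = 0 then (if codeB β (v / 2) (u / 2) then (q, p) else (q', p'))
      else (if u < v then (q, t q) else (t q, q)))

def tyP (p q : Out K) (u : ℕ) : Out K := if u % 2 = 0 then p else q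

/-- the plans -/
def pln (L : FirstOrder.Language.{0, 0}) (t : Out K → Out K) (p p' q q' : Out K)
    (lt : El (Out K) → El (Out K) → Prop) (x : ℕ → Bool) : Plan L K where
  tyY := tyP p q
  pY := fun u v => pYB t p p' q q' (x (ix u v)) u v
  P := fun _ _ _ => False
  lt := lt

theorem Sim.symm' {S : L.Structure M} {m m' : M} (h : Sim S K m m') : Sim S K m' m :=
  fun n R p => (h n R p).symm

theorem Sim.refl' (S : L.Structure M) (m : M) : Sim S K m m := fun _ _ _ => Iff.rfl

variable {S : L.Structure M} {t : Out K → Out K} {p p' q q' : Out K}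
  {lt : El (Out K) → El (Out K) → Prop}

theorem plnOk (ht : ∀ m : Out K, t m ≠ m ∧ Sim S K m (t m)) (hp : Sim S K p p')
    (hq : Sim S K q q') (hpq : p ≠ q) (hpq' : p' ≠ q') (hl : ∀ a b, a ≠ b → (lt a b ↔ ¬ lt b a))
    (hf : ∀ i u v m m' z, lt (El.y i) (El.new u v m m' z)) (x : ℕ → Bool) :
    PlanOk S K (pln L t p p' q q' lt x) where
  swap := by
    intro i j hij
    show pYB t p p' q q' (x (ix j i)) j i = (pYB t p p' q q' (x (ix i j)) i j).swap
    unfold pYB ix
    rcases Nat.mod_two_eq_zero_or_one i with hi | hi <;>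
      rcases Nat.mod_two_eq_zero_or_one j with hj | hj <;>
      simp only [hi, hj, if_true, one_ne_zero, if_false]
    · rcases lt_or_gt_of_ne hij with h | h
      · rw [if_neg (by omega), if_pos h]; rfl
      · rw [if_pos h, if_neg (by omega)]; rfl
    · split_ifs <;> rfl
    · split_ifs <;> rfl
    · rcases lt_or_gt_of_ne hij with h | h
      · rw [if_neg (by omega), if_pos h]; rfl
      · rw [if_pos h, if_neg (by omega)]; rfl
  ne := by
    intro i j _
    show (pYB t p p' q q' (x (ix i j)) i j).1 ≠ (pYB t p p' q q' (x (ix i j)) i j).2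
    unfold pYB
    split_ifs
    · exact (ht p).1.symm
    · exact (ht p).1
    · exact hpq
    · exact hpq'
    · exact hpq.symm
    · exact hpq'.symm
    · exact (ht q).1.symm
    · exact (ht q).1
  sim := by
    intro i j _
    show Sim S K ((pYB t p p' q q' (x (ix i j)) i j).1 : M) (tyP p q i : M)
    unfold pYB tyP
    split_ifs
    · exact Sim.refl' S _
    · exact Sim.symm' (ht p).2
    · exact Sim.refl' S _
    · exact Sim.symm' hp
    · exact Sim.refl' S _
    · exact Sim.symm' hq
    · exact Sim.refl' S _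
    · exact Sim.symm' (ht q).2
  tot := hl
  first := hf

theorem not_child_y (c : Cp (Out K)) (n : ℕ) : ¬ Child c (El.y n) := by
  rintro ⟨z, _, _, h⟩
  cases h

theorem role_y {c : Cp (Out K)} {n : ℕ} {z : Out K} (h : Role c (El.y n) z) :
    El.y n = c.u ∨ El.y n = c.v := by
  generalize hy : (El.y n : El (Out K)) = a at h
  cases h with
  | left => exact Or.inl rfl
  | right => exact Or.inr rfl
  | child _ _ => cases hy

/-- relations between two points outside `K` which are not in a copy -/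
theorem rel_two [L.IsRelational] (pl : Plan L K) (R : L.Relations 2) (a b : El (Out K))
    (hab : a ≠ b) (hc : ¬ ∃ c, InCopy S pl c ![Sum.inr a, Sum.inr b])
    (hsw : pp pl t b a = (pp pl t a b).swap) :
    (NStr S pl t).RelMap R ![Sum.inr a, Sum.inr b] ↔
      S.RelMap R ![((pp pl t a b).1 : M), ((pp pl t a b).2 : M)] := by
  classical
  show RelN S pl t R ![Sum.inr a, Sum.inr b] ↔ _
  unfold RelN
  have hone : ¬ One (K := K) ![Sum.inr a, Sum.inr b] := by
    intro h
    exact hab (h 0 1 a b rfl rfl)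
  have htwo : Two (K := K) a b ![Sum.inr a, Sum.inr b] := by
    refine ⟨hab, ⟨0, rfl⟩, ⟨1, rfl⟩, fun i e he => ?_⟩
    fin_cases i
    · left; exact (Sum.inr.inj he).symm
    · right; exact (Sum.inr.inj he).symm
  have hev : ∀ f : El (Out K) → Out K, (fun i => ev f (![Sum.inr a, Sum.inr b] i)) =
      ![((f a : Out K) : M), ((f b : Out K) : M)] := by
    intro f
    funext i
    fin_cases i <;> rfl
  constructor
  · rintro (⟨c, hcc, _⟩ | ⟨_, h1 | ⟨a', b', h2, h3⟩ | h4⟩)
    · exact absurd ⟨c, hcc⟩ hc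
    · exact absurd h1.1 hone
    · rw [hev] at h3
      obtain ⟨hne, ⟨i, hi⟩, ⟨j, hj⟩, _⟩ := h2
      have ha' := htwo.2.2.2 i a' hi
      have hb' := htwo.2.2.2 j b' hj
      rcases ha' with rfl | rfl
      · rcases hb' with rfl | rfl
        · exact absurd rfl hne
        · rw [if_pos rfl, if_neg hab.symm] at h3
          exact h3
      · rcases hb' with rfl | rfl
        · rw [if_neg hab, if_pos rfl, hsw] at h3
          exact h3
        · exact absurd rfl hne
    · exact absurd ⟨a, b, htwo⟩ h4.2.1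
  · intro h
    refine Or.inr ⟨hc, Or.inr (Or.inl ⟨a, b, htwo, ?_⟩)⟩
    rw [hev, if_pos rfl, if_neg hab.symm]
    exact h

/-- relations between a point of `K` and a planted point -/
theorem rel_K [L.IsRelational] (pl : Plan L K) (R : L.Relations 2) (k : K) (n : ℕ) :
    ((NStr S pl t).RelMap R ![Sum.inl k, Sum.inr (El.y n)] ↔
      S.RelMap R ![(k : M), (pl.tyY n : M)]) ∧
    ((NStr S pl t).RelMap R ![Sum.inr (El.y n), Sum.inl k] ↔
      S.RelMap R ![(pl.tyY n : M), (k : M)]) := by
  classical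
  constructor
  · show RelN S pl t R ![Sum.inl k, Sum.inr (El.y n)] ↔ _
    unfold RelN
    have hon : ∀ i e, (![Sum.inl k, Sum.inr (El.y n)] : Fin 2 → K ⊕ El (Out K)) i = Sum.inr e →
        e = El.y n := by
      intro i e he
      fin_cases i
      · exact absurd he (by simp)
      · exact (Sum.inr.inj he).symm
    have hone : One (K := K) ![Sum.inl k, Sum.inr (El.y n)] := by
      intro i j e e' he he'
      rw [hon i e he, hon j e' he']
    have hc : ¬ ∃ c, InCopy S pl c ![Sum.inl k, Sum.inr (El.y n)] := by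
      rintro ⟨c, _, ⟨i, e, he, hch⟩, _⟩
      rw [hon i e he] at hch
      exact not_child_y c n hch
    have htwo : ¬ ∃ a b, Two (K := K) a b ![Sum.inl k, Sum.inr (El.y n)] := by
      rintro ⟨a, b, hne, ⟨i, hi⟩, ⟨j, hj⟩, _⟩
      exact hne ((hon i a hi).trans (hon j b hj).symm)
    have hev : (fun i => ev (ty pl.tyY) ((![Sum.inl k, Sum.inr (El.y n)] :
        Fin 2 → K ⊕ El (Out K)) i)) = ![(k : M), (pl.tyY n : M)] := by
      funext i
      fin_cases i <;> rfl
    rw [hev]
    constructor
    · rintro (⟨c, hcc, _⟩ | ⟨_, h1 | ⟨a', b', h2, _⟩ | h4⟩)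
      · exact absurd ⟨c, hcc⟩ hc
      · exact h1.2
      · exact absurd ⟨a', b', h2⟩ htwo
      · exact absurd hone h4.1
    · intro h
      exact Or.inr ⟨hc, Or.inl ⟨hone, h⟩⟩
  · show RelN S pl t R ![Sum.inr (El.y n), Sum.inl k] ↔ _
    unfold RelN
    have hon : ∀ i e, (![Sum.inr (El.y n), Sum.inl k] : Fin 2 → K ⊕ El (Out K)) i = Sum.inr e →
        e = El.y n := by
      intro i e he
      fin_cases i
      · exact (Sum.inr.inj he).symm
      · exact absurd he (by simp)
    have hone : One (K := K) ![Sum.inr (El.y n), Sum.inl k] := by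
      intro i j e e' he he'
      rw [hon i e he, hon j e' he']
    have hc : ¬ ∃ c, InCopy S pl c ![Sum.inr (El.y n), Sum.inl k] := by
      rintro ⟨c, _, ⟨i, e, he, hch⟩, _⟩
      rw [hon i e he] at hch
      exact not_child_y c n hch
    have htwo : ¬ ∃ a b, Two (K := K) a b ![Sum.inr (El.y n), Sum.inl k] := by
      rintro ⟨a, b, hne, ⟨i, hi⟩, ⟨j, hj⟩, _⟩
      exact hne ((hon i a hi).trans (hon j b hj).symm)
    have hev : (fun i => ev (ty pl.tyY) ((![Sum.inr (El.y n), Sum.inl k] :
        Fin 2 → K ⊕ El (Out K)) i)) = ![(pl.tyY n : M), (k : M)] := by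
      funext i
      fin_cases i <;> rfl
    rw [hev]
    constructor
    · rintro (⟨c, hcc, _⟩ | ⟨_, h1 | ⟨a', b', h2, _⟩ | h4⟩)
      · exact absurd ⟨c, hcc⟩ hc
      · exact h1.2
      · exact absurd ⟨a', b', h2⟩ htwo
      · exact absurd hone h4.1
    · intro h
      exact Or.inr ⟨hc, Or.inl ⟨hone, h⟩⟩

/-- relations between planted points -/
theorem rel_y [L.IsRelational] (pl : Plan L K) (hpl : PlanOk S K pl) (R : L.Relations 2)
    (u v : ℕ) (huv : u ≠ v) :
    (NStr S pl t).RelMap R ![Sum.inr (El.y u), Sum.inr (El.y v)] ↔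
      S.RelMap R ![((pl.pY u v).1 : M), ((pl.pY u v).2 : M)] := by
  refine rel_two pl R _ _ (fun h => huv (El.y.inj h)) ?_ (hpl.swap u v huv)
  rintro ⟨c, _, ⟨i, e, he, hch⟩, _⟩
  fin_cases i
  · rw [← Sum.inr.inj he] at hch
    exact not_child_y c u hch
  · rw [← Sum.inr.inj he] at hch
    exact not_child_y c v hch

open Classical in
/-- relations between a new point and a planted point -/
theorem rel_new [L.IsRelational] (pl : Plan L K) (hpl : PlanOk S K pl) (R : L.Relations 2)
    (U V : El (Out K)) (m m' w : Out K) (n : ℕ) (hU : El.y n ≠ U) (hV : El.y n ≠ V) :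
    ((NStr S pl t).RelMap R ![Sum.inr (El.new U V m m' w), Sum.inr (El.y n)] ↔
      S.RelMap R ![((if w ≠ pl.tyY n then (w, pl.tyY n) else (t w, w)).1 : M),
        ((if w ≠ pl.tyY n then (w, pl.tyY n) else (t w, w)).2 : M)]) ∧
    ((NStr S pl t).RelMap R ![Sum.inr (El.y n), Sum.inr (El.new U V m m' w)] ↔
      S.RelMap R ![((if pl.tyY n ≠ w then (pl.tyY n, w) else (pl.tyY n, t (pl.tyY n))).1 : M),
        ((if pl.tyY n ≠ w then (pl.tyY n, w) else (pl.tyY n, t (pl.tyY n))).2 : M)]) := by
  have hlt : pl.lt (El.y n) (El.new U V m m' w) := hpl.first n U V m m' w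
  have hne : (El.y n : El (Out K)) ≠ El.new U V m m' w := fun h => by cases h
  have hlt' : ¬ pl.lt (El.new U V m m' w) (El.y n) := (hpl.tot _ _ hne).1 hlt
  have e1 : pp pl t (El.new U V m m' w) (El.y n) =
      if w ≠ pl.tyY n then (w, pl.tyY n) else (t w, w) := by
    show (if w ≠ pl.tyY n then (w, pl.tyY n) else
      if pl.lt (El.new U V m m' w) (El.y n) then (w, t w) else (t w, w)) = _
    rw [if_neg hlt']
  have e2 : pp pl t (El.y n) (El.new U V m m' w) =
      if pl.tyY n ≠ w then (pl.tyY n, w) else (pl.tyY n, t (pl.tyY n)) := by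
    show (if pl.tyY n ≠ w then (pl.tyY n, w) else
      if pl.lt (El.y n) (El.new U V m m' w) then (pl.tyY n, t (pl.tyY n)) else
        (t (pl.tyY n), pl.tyY n)) = _
    rw [if_pos hlt]
  have hsw : pp pl t (El.y n) (El.new U V m m' w) =
      (pp pl t (El.new U V m m' w) (El.y n)).swap := by
    rw [e1, e2]
    by_cases h : w = pl.tyY n
    · rw [if_neg (not_not.2 h.symm), if_neg (not_not.2 h), h]; rfl
    · rw [if_pos (Ne.symm h), if_pos h]; rfl
  have hsw' : pp pl t (El.new U V m m' w) (El.y n) =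
      (pp pl t (El.y n) (El.new U V m m' w)).swap := by
    rw [hsw, Prod.swap_swap]
  have hcopy : ∀ c : Cp (Out K), ∀ s : Fin 2 → K ⊕ El (Out K),
      (∀ i e, s i = Sum.inr e → e = El.y n ∨ e = El.new U V m m' w) →
      (∃ i, s i = Sum.inr (El.y n)) → ¬ InCopy S pl c s := by
    rintro c s hs ⟨i0, hi0⟩ ⟨_, ⟨i, e, he, hch⟩, hr⟩
    rcases hs i e he with rfl | rfl
    · exact not_child_y c n hch
    · obtain ⟨z, _, _, hz⟩ := hch
      obtain ⟨z', hz'⟩ := hr i0 _ hi0
      injection hz with h1 h2 h3 h4 h5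
      rcases role_y hz' with h | h
      · exact hU (h.trans h1.symm)
      · exact hV (h.trans h2.symm)
  constructor
  · rw [← e1]
    refine rel_two pl R _ _ hne.symm ?_ hsw
    rintro ⟨c, hc⟩
    refine hcopy c _ (fun i e he => ?_) ⟨1, rfl⟩ hc
    fin_cases i
    · right; exact (Sum.inr.inj he).symm
    · left; exact (Sum.inr.inj he).symm
  · rw [← e2]
    refine rel_two pl R _ _ hne ?_ hsw'
    rintro ⟨c, hc⟩
    refine hcopy c _ (fun i e he => ?_) ⟨0, rfl⟩ hc
    fin_cases i
    · left; exact (Sum.inr.inj he).symm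
    · right; exact (Sum.inr.inj he).symm

end

/-! ### Combinatorics of the pattern -/

theorem three {α : Type*} {f : ℕ → α} (hf : Function.Injective f) (U V : α) {n1 n2 n3 : ℕ}
    (h12 : n1 ≠ n2) (h13 : n1 ≠ n3) (h23 : n2 ≠ n3) :
    ∃ n, (n = n1 ∨ n = n2 ∨ n = n3) ∧ f n ≠ U ∧ f n ≠ V := by
  by_contra hcon
  push Not at hcon
  have h1 : f n1 = U ∨ f n1 = V := by
    by_contra h; push Not at h; exact h.2 (hcon n1 (Or.inl rfl) h.1)
  have h2 : f n2 = U ∨ f n2 = V := by
    by_contra h; push Not at h; exact h.2 (hcon n2 (Or.inr (Or.inl rfl)) h.1)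
  have h3 : f n3 = U ∨ f n3 = V := by
    by_contra h; push Not at h; exact h.2 (hcon n3 (Or.inr (Or.inr rfl)) h.1)
  rcases h1 with h1 | h1 <;> rcases h2 with h2 | h2 <;> rcases h3 with h3 | h3 <;>
    first
    | exact h12 (hf (h1.trans h2.symm))
    | exact h13 (hf (h1.trans h3.symm))
    | exact h23 (hf (h2.trans h3.symm))

theorem shift (δ : ℕ) (hδ : 1 ≤ δ) : ∃ d, 1 ≤ d ∧ d ≤ 7 ∧ W d = true ∧ W (d + δ) = false := by
  rcases Nat.lt_or_ge δ 9 with h | h
  · have : ∀ δ < 9, 1 ≤ δ → ∃ d < 8, 1 ≤ d ∧ W d = true ∧ W (d + δ) = false := by decide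
    obtain ⟨d, h1, h2, h3, h4⟩ := this δ h hδ
    exact ⟨d, h2, by omega, h3, h4⟩
  · refine ⟨1, le_rfl, by norm_num, by decide, ?_⟩
    unfold W
    rw [decide_eq_false_iff_not]
    omega

theorem W_true {d : ℕ} (h : d = 1 ∨ d = 2 ∨ d = 3) : W d = true := by
  rcases h with rfl | rfl | rfl <;> decide

theorem W_false {d : ℕ} (h : d = 4 ∨ d = 5 ∨ d = 6) : W d = false := by
  rcases h with rfl | rfl | rfl <;> decide

theorem W_big {d : ℕ} (h : 10 ≤ d) : W d = false := by
  unfold W
  rw [decide_eq_false_iff_not]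
  omega

/-- the code of the pairs -/
def cod (x : ℕ → Bool) (i j : ℕ) : Bool := codeB (x (i - 14)) i j

theorem cod_lt {x : ℕ → Bool} {i j : ℕ} (h : j < i) (hj : 1 ≤ j) : cod x i j = W (i - j) := by
  unfold cod codeB
  rw [if_pos h]
  have : decide (j = 0) = false := by rw [decide_eq_false_iff_not]; omega
  rw [this, Bool.false_and, Bool.false_and, Bool.or_false]

theorem cod_ge {x : ℕ → Bool} {i j : ℕ} (h : i ≤ j) : cod x i j = W (j + 1 - i) := by
  unfold cod codeB
  rw [if_neg (by omega)]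

theorem cod_zero {x : ℕ → Bool} {i : ℕ} (h : 14 ≤ i) : cod x i 0 = x (i - 14) := by
  unfold cod codeB
  rw [if_pos (by omega), Nat.sub_zero, W_big (by omega)]
  simp [h]

section main

variable {L : FirstOrder.Language.{0, 0}} {M : Type} {K : Set M} [L.IsRelational]
  {S : L.Structure M} {t : Out K → Out K} {p p' q q' : Out K}
  {lt : El (Out K) → El (Out K) → Prop}

/-- the points `a_i`, `b_j` -/
abbrev aa (K : Set M) (i : ℕ) : El (Out K) := El.y (2 * i)

abbrev bb (K : Set M) (j : ℕ) : El (Out K) := El.y (2 * j + 1)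

theorem aa_inj : Function.Injective (aa K) := fun i j h => by
  have := El.y.inj h; omega

theorem bb_inj : Function.Injective (bb K) := fun i j h => by
  have := El.y.inj h; omega

/-- the relation -/
def RR (S : L.Structure M) (t : Out K → Out K) (p p' q q' : Out K)
    (lt : El (Out K) → El (Out K) → Prop) (R : L.Relations 2) (x : ℕ → Bool)
    (α β : K ⊕ El (Out K)) : Prop :=
  (NStr S (pln L t p p' q q' lt x) t).RelMap R ![α, β]

variable (R : L.Relations 2) (hpl : ∀ x, PlanOk S K (pln L t p p' q q' lt x))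
  (hR : S.RelMap R ![(p : M), (q : M)]) (hR' : ¬ S.RelMap R ![(p' : M), (q' : M)])

include hpl

include hR hR' in
theorem RR_ab (x : ℕ → Bool) (i j : ℕ) :
    RR S t p p' q q' lt R x (Sum.inr (aa K i)) (Sum.inr (bb K j)) ↔ cod x i j = true := by
  unfold RR
  rw [rel_y _ (hpl x) R _ _ (by omega)]
  show S.RelMap R ![((pYB t p p' q q' (x (ix (2 * i) (2 * j + 1))) (2 * i) (2 * j + 1)).1 : M),
    ((pYB t p p' q q' (x (ix (2 * i) (2 * j + 1))) (2 * i) (2 * j + 1)).2 : M)] ↔ _
  unfold pYB ix cod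
  have h1 : 2 * i % 2 = 0 := by omega
  have h2 : (2 * j + 1) % 2 ≠ 0 := by omega
  have h3 : 2 * i / 2 = i := by omega
  have h4 : (2 * j + 1) / 2 = j := by omega
  rw [if_pos h1, if_neg h2, if_pos h1, h3, h4]
  by_cases h : codeB (x (i - 14)) i j = true
  · rw [if_pos h]
    exact ⟨fun _ => h, fun _ => hR⟩
  · rw [if_neg h]
    exact ⟨fun h' => absurd h' hR', fun h' => absurd h' h⟩

theorem RR_bb (x : ℕ → Bool) (l j : ℕ) (h : j < l) :
    RR S t p p' q q' lt R x (Sum.inr (bb K l)) (Sum.inr (bb K j)) ↔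
      S.RelMap R ![((t q : Out K) : M), (q : M)] := by
  unfold RR
  rw [rel_y _ (hpl x) R _ _ (by omega)]
  show S.RelMap R ![((pYB t p p' q q' (x (ix (2 * l + 1) (2 * j + 1))) (2 * l + 1)
    (2 * j + 1)).1 : M), ((pYB t p p' q q' (x (ix (2 * l + 1) (2 * j + 1))) (2 * l + 1)
    (2 * j + 1)).2 : M)] ↔ _
  unfold pYB
  rw [if_neg (by omega), if_neg (by omega), if_neg (by omega)]

theorem RR_aa (x : ℕ → Bool) (i l : ℕ) (h : i < l) :
    RR S t p p' q q' lt R x (Sum.inr (aa K i)) (Sum.inr (aa K l)) ↔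
      S.RelMap R ![(p : M), ((t p : Out K) : M)] := by
  unfold RR
  rw [rel_y _ (hpl x) R _ _ (by omega)]
  show S.RelMap R ![((pYB t p p' q q' (x (ix (2 * i) (2 * l))) (2 * i) (2 * l)).1 : M),
    ((pYB t p p' q q' (x (ix (2 * i) (2 * l))) (2 * i) (2 * l)).2 : M)] ↔ _
  unfold pYB
  rw [if_pos (by omega), if_pos (by omega), if_pos (by omega)]

theorem left_const (x : ℕ → Bool) (m : ℕ) (z : K ⊕ El (Out K))
    (hb : ∀ j < m, z ≠ Sum.inr (bb K j)) (ha : ∀ l, z ≠ Sum.inr (aa K l)) :
    ∃ (c : Prop) (U V : El (Out K)), ∀ j < m, bb K j ≠ U → bb K j ≠ V →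
      (RR S t p p' q q' lt R x z (Sum.inr (bb K j)) ↔ c) := by
  have hty : ∀ j, (pln L t p p' q q' lt x).tyY (2 * j + 1) = q := by
    intro j
    show tyP p q (2 * j + 1) = q
    unfold tyP
    rw [if_neg (by omega)]
  rcases z with k | z
  · refine ⟨S.RelMap R ![(k : M), (q : M)], El.y 0, El.y 0, fun j _ _ _ => ?_⟩
    unfold RR
    rw [(rel_K _ R k (2 * j + 1)).1, hty]
  · cases z with
    | y n =>
      rcases Nat.mod_two_eq_zero_or_one n with hn | hn
      · exfalso
        refine ha (n / 2) ?_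
        show (Sum.inr (El.y n) : K ⊕ El (Out K)) = Sum.inr (El.y (2 * (n / 2)))
        rw [Nat.mul_div_cancel' (Nat.dvd_of_mod_eq_zero hn)]
      · refine ⟨S.RelMap R ![((t q : Out K) : M), (q : M)], El.y 0, El.y 0, fun j hj _ _ => ?_⟩
        have hn2 : n = 2 * (n / 2) + 1 := by omega
        have hlm : m ≤ n / 2 := by
          by_contra hcon
          push Not at hcon
          refine hb (n / 2) hcon ?_
          show (Sum.inr (El.y n) : K ⊕ El (Out K)) = Sum.inr (El.y (2 * (n / 2) + 1))
          rw [← hn2]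
        have := RR_bb (S := S) (t := t) (p := p) (p' := p') (q := q) (q' := q') (lt := lt) R hpl x
          (n / 2) j (by omega)
        rw [← this]
        show RR S t p p' q q' lt R x (Sum.inr (El.y n)) _ ↔
          RR S t p p' q q' lt R x (Sum.inr (El.y (2 * (n / 2) + 1))) _
        rw [← hn2]
    | new U V μ μ' w =>
      classical
      refine ⟨S.RelMap R ![((if w ≠ q then (w, q) else (t w, w)).1 : M),
        ((if w ≠ q then (w, q) else (t w, w)).2 : M)], U, V, fun j _ hU hV => ?_⟩
      unfold RR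
      rw [(rel_new _ (hpl x) R U V μ μ' w (2 * j + 1) hU hV).1, hty]

theorem right_const (x : ℕ → Bool) (m : ℕ) (z : K ⊕ El (Out K))
    (ha : ∀ i ≤ m, z ≠ Sum.inr (aa K i)) (hb : ∀ l, z ≠ Sum.inr (bb K l)) :
    ∃ (c : Prop) (U V : El (Out K)), ∀ i ≤ m, aa K i ≠ U → aa K i ≠ V →
      (RR S t p p' q q' lt R x (Sum.inr (aa K i)) z ↔ c) := by
  have hty : ∀ j, (pln L t p p' q q' lt x).tyY (2 * j) = p := by
    intro j
    show tyP p q (2 * j) = p
    unfold tyP
    rw [if_pos (by omega)]
  rcases z with k | z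
  · refine ⟨S.RelMap R ![(p : M), (k : M)], El.y 1, El.y 1, fun j _ _ _ => ?_⟩
    unfold RR
    rw [(rel_K _ R k (2 * j)).2, hty]
  · cases z with
    | y n =>
      rcases Nat.mod_two_eq_zero_or_one n with hn | hn
      · refine ⟨S.RelMap R ![(p : M), ((t p : Out K) : M)], El.y 1, El.y 1, fun i hi _ _ => ?_⟩
        have hn2 : n = 2 * (n / 2) := by omega
        have hlm : m < n / 2 := by
          by_contra hcon
          push Not at hcon
          refine ha (n / 2) hcon ?_
          show (Sum.inr (El.y n) : K ⊕ El (Out K)) = Sum.inr (El.y (2 * (n / 2)))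
          rw [← hn2]
        have := RR_aa (S := S) (t := t) (p := p) (p' := p') (q := q) (q' := q') (lt := lt) R hpl x
          i (n / 2) (by omega)
        rw [← this]
        show RR S t p p' q q' lt R x _ (Sum.inr (El.y n)) ↔
          RR S t p p' q q' lt R x _ (Sum.inr (El.y (2 * (n / 2))))
        rw [← hn2]
      · exfalso
        have hn2 : n = 2 * (n / 2) + 1 := by omega
        refine hb (n / 2) ?_
        show (Sum.inr (El.y n) : K ⊕ El (Out K)) = Sum.inr (El.y (2 * (n / 2) + 1))
        rw [← hn2]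
    | new U V μ μ' w =>
      classical
      refine ⟨S.RelMap R ![((if p ≠ w then (p, w) else (p, t p)).1 : M),
        ((if p ≠ w then (p, w) else (p, t p)).2 : M)], U, V, fun j _ hU hV => ?_⟩
      unfold RR
      rw [(rel_new _ (hpl x) R U V μ μ' w (2 * j) hU hV).2, hty]

include hR hR' in
theorem fixed (x x' : ℕ → Bool) (e : (K ⊕ El (Out K)) ≃ (K ⊕ El (Out K)))
    (he : ∀ α β, RR S t p p' q q' lt R x α β ↔ RR S t p p' q q' lt R x' (e α) (e β))
    (hfix : ∀ i < 28, e (Sum.inr (El.y i)) = Sum.inr (El.y i)) :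
    ∀ m, e (Sum.inr (aa K m)) = Sum.inr (aa K m) ∧ e (Sum.inr (bb K m)) = Sum.inr (bb K m) := by
  intro m
  induction m using Nat.strong_induction_on with
  | _ m ih =>
  rcases Nat.lt_or_ge m 14 with hm | hm
  · exact ⟨hfix _ (by omega), hfix _ (by omega)⟩
  -- the point a_m
  have hA : e (Sum.inr (aa K m)) = Sum.inr (aa K m) := by
    set z := e (Sum.inr (aa K m)) with hz
    have hrel : ∀ j < m, (RR S t p p' q q' lt R x' z (Sum.inr (bb K j)) ↔ cod x m j = true) := by
      intro j hj
      have h1 := he (Sum.inr (aa K m)) (Sum.inr (bb K j))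
      rw [(ih j hj).2, RR_ab R hpl hR hR'] at h1
      exact h1.symm
    have hzb : ∀ j < m, z ≠ Sum.inr (bb K j) := by
      intro j hj h
      rw [← (ih j hj).2] at h
      have h2 := Sum.inr.inj (e.injective h)
      have h3 := El.y.inj h2
      omega
    have hza : ∀ j < m, z ≠ Sum.inr (aa K j) := by
      intro j hj h
      rw [← (ih j hj).1] at h
      have h2 := Sum.inr.inj (e.injective h)
      have h3 := El.y.inj h2
      omega
    by_cases hex : ∃ l, z = Sum.inr (aa K l)
    · obtain ⟨l, hl⟩ := hex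
      rcases lt_trichotomy l m with h | h | h
      · exact absurd hl (hza l h)
      · rw [hl, h]
      · exfalso
        obtain ⟨d, hd1, hd7, hd, hd'⟩ := shift (l - m) (by omega)
        have h1 := hrel (m - d) (by omega)
        rw [hl, RR_ab R hpl hR hR', cod_lt (by omega) (by omega), cod_lt (by omega) (by omega)] at h1
        have e1 : l - (m - d) = d + (l - m) := by omega
        have e2 : m - (m - d) = d := by omega
        rw [e1, e2, hd, hd'] at h1
        exact absurd (h1.2 rfl) (by simp)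
    · exfalso
      push Not at hex
      obtain ⟨c, U, V, hc⟩ := left_const (S := S) (t := t) (p := p) (p' := p') (q := q) (q' := q')
        (lt := lt) R hpl x' m z hzb hex
      obtain ⟨n1, hn1, hU1, hV1⟩ := three (bb_inj (K := K)) U V (n1 := m - 1) (n2 := m - 2)
        (n3 := m - 3) (by omega) (by omega) (by omega)
      obtain ⟨n2, hn2, hU2, hV2⟩ := three (bb_inj (K := K)) U V (n1 := m - 4) (n2 := m - 5)
        (n3 := m - 6) (by omega) (by omega) (by omega)
      have h1 := (hc n1 (by omega) hU1 hV1).symm.trans (hrel n1 (by omega))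
      have h2 := (hc n2 (by omega) hU2 hV2).symm.trans (hrel n2 (by omega))
      rw [cod_lt (by omega) (by omega), W_true (by omega)] at h1
      rw [cod_lt (by omega) (by omega), W_false (by omega)] at h2
      exact absurd (h2.1 (h1.2 rfl)) (by simp)
  refine ⟨hA, ?_⟩
  set z := e (Sum.inr (bb K m)) with hz
  have ih' : ∀ i ≤ m, e (Sum.inr (aa K i)) = Sum.inr (aa K i) := by
    intro i hi
    rcases Nat.lt_or_ge i m with h | h
    · exact (ih i h).1
    · have : i = m := by omega
      rw [this]; exact hA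
  have hrel : ∀ i ≤ m, (RR S t p p' q q' lt R x' (Sum.inr (aa K i)) z ↔ cod x i m = true) := by
    intro i hi
    have h1 := he (Sum.inr (aa K i)) (Sum.inr (bb K m))
    rw [ih' i hi, RR_ab R hpl hR hR'] at h1
    exact h1.symm
  have hzb : ∀ j < m, z ≠ Sum.inr (bb K j) := by
    intro j hj h
    rw [← (ih j hj).2] at h
    have h2 := Sum.inr.inj (e.injective h)
    have h3 := El.y.inj h2
    omega
  have hza : ∀ j ≤ m, z ≠ Sum.inr (aa K j) := by
    intro j hj h
    rw [← ih' j hj] at h
    have h2 := Sum.inr.inj (e.injective h)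
    have h3 := El.y.inj h2
    omega
  by_cases hex : ∃ l, z = Sum.inr (bb K l)
  · obtain ⟨l, hl⟩ := hex
    rcases lt_trichotomy l m with h | h | h
    · exact absurd hl (hzb l h)
    · rw [hl, h]
    · exfalso
      obtain ⟨d, hd1, hd7, hd, hd'⟩ := shift (l - m) (by omega)
      have h1 := hrel (m + 1 - d) (by omega)
      rw [hl, RR_ab R hpl hR hR', cod_ge (by omega), cod_ge (by omega)] at h1
      have e1 : l + 1 - (m + 1 - d) = d + (l - m) := by omega
      have e2 : m + 1 - (m + 1 - d) = d := by omega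
      rw [e1, e2, hd, hd'] at h1
      exact absurd (h1.2 rfl) (by simp)
  · exfalso
    push Not at hex
    obtain ⟨c, U, V, hc⟩ := right_const (S := S) (t := t) (p := p) (p' := p') (q := q) (q' := q')
      (lt := lt) R hpl x' m z hza hex
    obtain ⟨n1, hn1, hU1, hV1⟩ := three (aa_inj (K := K)) U V (n1 := m) (n2 := m - 1)
      (n3 := m - 2) (by omega) (by omega) (by omega)
    obtain ⟨n2, hn2, hU2, hV2⟩ := three (aa_inj (K := K)) U V (n1 := m - 3) (n2 := m - 4)
      (n3 := m - 5) (by omega) (by omega) (by omega)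
    have h1 := (hc n1 (by omega) hU1 hV1).symm.trans (hrel n1 (by omega))
    have h2 := (hc n2 (by omega) hU2 hV2).symm.trans (hrel n2 (by omega))
    rw [cod_ge (by omega), W_true (by omega)] at h1
    rw [cod_ge (by omega), W_false (by omega)] at h2
    exact absurd (h2.1 (h1.2 rfl)) (by simp)

end main

theorem task (hfam : S_FAM) (hord : S_ORD) : S_F2 := by
  intro L hL hrel T M S K t hB R p p' q q' hp hq hpq hpq' hR hR'
  haveI := hrel
  obtain ⟨lt, hl, hf⟩ := hord (Out K)
  have hpl : ∀ x, PlanOk S K (pln L t p p' q q' lt x) := fun x =>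
    plnOk hB.tw hp hq hpq hpq' hl hf x
  refine hfam L hL T M S K t hB (pln L t p p' q q' lt) hpl (fun x x' => ⟨rfl, rfl⟩) ?_ ?_ 28 ?_
  · intro i j v
    have h1 : {x : ℕ → Bool | (pln L t p p' q q' lt x).pY i j = v} =
        (fun x : ℕ → Bool => x (ix i j)) ⁻¹' {β | pYB t p p' q q' β i j = v} := rfl
    rw [h1]
    exact (isClopen_discrete _).preimage (continuous_apply (ix i j))
  · intro n R s
    have h1 : {x : ℕ → Bool | (pln L t p p' q q' lt x).P n R s} = ∅ := by
      ext x
      exact ⟨fun h => h, fun h => h⟩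
    rw [h1]
    exact isClopen_empty
  · intro x x' e he hfix
    have he' : ∀ α β, RR S t p p' q q' lt R x α β ↔ RR S t p p' q q' lt R x' (e α) (e β) := by
      intro α β
      unfold RR
      rw [he 2 R (![α, β])]
      have : (fun i => e ((![α, β] : Fin 2 → K ⊕ El (Out K)) i)) = ![e α, e β] := by
        funext i
        fin_cases i <;> rfl
      rw [this]
    have hfx := fixed R hpl hR hR' x x' e he' hfix
    funext n
    have h1 := he' (Sum.inr (aa K (n + 14))) (Sum.inr (bb K 0))
    rw [(hfx (n + 14)).1, (hfx 0).2, RR_ab R hpl hR hR', RR_ab R hpl hR hR',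
      cod_zero (by omega), cod_zero (by omega), Nat.add_sub_cancel] at h1
    exact Bool.eq_iff_iff.2 h1

end Pool.Agent.W930.VPF2
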