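import Pool.Agent.W217.BE.Stm

/-! Project BE: the one variable step. -/

set_option autoImplicit false

namespace Pool.Agent.W930.BESTEP

open Pool.Agent.W217.BE Polynomial

theorem res_zero0 {S M : Type} [CommRing S] [AddCommGroup M] [Module S M] {P : ℕ → Type}
    [∀ i, AddCommGroup (P i)] [∀ i, Module S (P i)] {d : ∀ i, P (i + 1) →ₗ[S] P i}
    {ε : P 0 →ₗ[S] M} (h : IsRes d ε) (x : P (0 + 1)) : ε (d 0 x) = 0 := by
  have h1 : d 0 x ∈ LinearMap.range (d 0) := LinearMap.mem_range_self (d 0) x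
  rw [h.2.1] at h1
  exact h1

theorem res_zero {S M : Type} [CommRing S] [AddCommGroup M] [Module S M] {P : ℕ → Type}
    [∀ i, AddCommGroup (P i)] [∀ i, Module S (P i)] {d : ∀ i, P (i + 1) →ₗ[S] P i}
    {ε : P 0 →ₗ[S] M} (h : IsRes d ε) (i : ℕ) (x : P (i + 1 + 1)) : d i (d (i + 1) x) = 0 := by
  have h1 : d (i + 1) x ∈ LinearMap.range (d (i + 1)) := LinearMap.mem_range_self (d (i + 1)) x
  rw [h.2.2 i] at h1
  exact h1

section

variable {C M : Type} [CommRing C] [AddCommGroup M] [Module C[X] M] [Module C M]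
  [IsScalarTower C C[X] M] {P : ℕ → Type} [∀ i, AddCommGroup (P i)] [∀ i, Module C[X] (P i)]
  [∀ i, Module C (P i)] [∀ i, IsScalarTower C C[X] (P i)]

theorem res_restrict {d : ∀ i, P (i + 1) →ₗ[C[X]] P i} {ε : P 0 →ₗ[C[X]] M} (h : IsRes d ε) :
    IsRes (fun i => (d i).restrictScalars C) (ε.restrictScalars C) := by
  refine ⟨h.1, ?_, fun i => ?_⟩
  · ext x
    have h1 := SetLike.ext_iff.1 h.2.1 x
    exact h1
  · ext x
    have h1 := SetLike.ext_iff.1 (h.2.2 i) x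
    exact h1

/-- Multiplication by the variable. -/
noncomputable def mX (C : Type) [CommRing C] (Q : Type) [AddCommGroup Q] [Module C[X] Q] [Module C Q]
    [IsScalarTower C C[X] Q] : Q →ₗ[C] Q where
  toFun x := (X : C[X]) • x
  map_add' x y := smul_add _ x y
  map_smul' _ _ := smul_comm _ _ _

theorem step_aux (hL : LIFT) (hH : HTPY) (hE : EXR) (hS : SIGTAU) (hK : KILL) (hC : CORE)
    {κ : Type} [Field κ] (χ : C →+* κ) (N₁ N₂ : Type)
    [AddCommGroup N₁] [Module C N₁] [AddCommGroup N₂] [Module C N₂]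
    (ι₁ : N₁ →ₗ[C] M) (π₁ : M →ₗ[C] N₁) (ι₂ : N₂ →ₗ[C] M) (π₂ : M →ₗ[C] N₂)
    (s₁ s₂ : C) (b₁ b₂ : ℕ → ℕ) (hs₁ : χ s₁ ≠ 0) (hs₂ : χ s₂ ≠ 0)
    (hπX : ∀ x, π₁ ((X : C[X]) • x) = 0) (hπι₁ : ∀ x, π₁ (ι₁ x) = s₁ • x)
    (hXι : ∀ x, (X : C[X]) • ι₂ x = 0) (hπι₂ : ∀ x, π₂ (ι₂ x) = s₂ • x)
    (hb₁ : HB χ N₁ b₁) (hb₂ : HB χ N₂ b₂) [∀ i, Module.Projective C[X] (P i)]
    (d : ∀ i, P (i + 1) →ₗ[C[X]] P i) (ε : P 0 →ₗ[C[X]] M) (hres : IsRes d ε) (i : ℕ) :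
    Cert (χ.comp (Polynomial.evalRingHom 0)) P d i (b₁ i + if i = 0 then 0 else b₂ (i - 1)) := by
  have hst : ∀ i, Module.Projective C (P i) ∧ ∃ σ τ : P i →ₗ[C] P i,
      (∀ x, x = σ x + (X : C[X]) • τ x) ∧ (∀ x, σ ((X : C[X]) • x) = 0) ∧
      (∀ x, τ ((X : C[X]) • x) = x) := fun i => hS C (P i) inferInstance
  have hproj : ∀ i, Module.Projective C (P i) := fun i => (hst i).1
  choose σ τ hσ using fun i => (hst i).2
  have hresC := res_restrict (C := C) hres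
  obtain ⟨F, iF1, iF2, iF3, dF, εF, hF⟩ := hE C N₁
  obtain ⟨G, iG1, iG2, iG3, dG, εG, hG⟩ := hE C N₂
  obtain ⟨f, hf0, hf⟩ := hL C N₁ M F P dF εF (fun i => (d i).restrictScalars C)
    (ε.restrictScalars C) ι₁ (res_zero0 hF) (res_zero hF) hresC
  obtain ⟨g, hg0, hg⟩ := hL C N₂ M G P dG εG (fun i => (d i).restrictScalars C)
    (ε.restrictScalars C) ι₂ (res_zero0 hG) (res_zero hG) hresC
  obtain ⟨r, hr0, hr⟩ := hL C M N₂ P G (fun i => (d i).restrictScalars C)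
    (ε.restrictScalars C) dG εG π₂ (fun x => res_zero0 hres x) (fun i x => res_zero hres i x) hG
  obtain ⟨p, hp0, hp, hpX⟩ := hK C M N₁ P F d ε dF εF π₁ σ τ hproj (fun i => (hσ i).1)
    (fun i => (hσ i).2.1) hres hF hπX
  have hf0' : ∀ x, ε (f 0 x) = ι₁ (εF x) := hf0
  have hf' : ∀ i x, d i (f (i + 1) x) = f i (dF i x) := hf
  have hg0' : ∀ x, ε (g 0 x) = ι₂ (εG x) := hg0
  have hg' : ∀ i x, d i (g (i + 1) x) = g i (dG i x) := hg
  have hr0' : ∀ x, εG (r 0 x) = π₂ (ε x) := hr0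
  have hr' : ∀ i x, dG i (r (i + 1) x) = r i (d i x) := hr
  obtain ⟨h, hh0, hh⟩ := hH C M G P dG (fun i => (d i).restrictScalars C)
    (ε.restrictScalars C) (fun i => (mX C (P i)).comp (g i)) (res_zero hG) hresC
    (fun x => by
      change ε ((X : C[X]) • g 0 x) = 0
      rw [map_smul, hg0', hXι])
    (fun i x => by
      change d i ((X : C[X]) • g (i + 1) x) = (X : C[X]) • g i (dG i x)
      rw [map_smul, hg'])
  obtain ⟨u, hu0, hu⟩ := hH C N₁ F F dF dF εF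
    (fun i => (p i).comp (f i) - s₁ • LinearMap.id) (res_zero hF) hF
    (fun x => by
      change εF (p 0 (f 0 x) - s₁ • x) = 0
      rw [map_sub, hp0, hf0', hπι₁, map_smul, sub_self])
    (fun i x => by
      change dF i (p (i + 1) (f (i + 1) x) - s₁ • x) = p i (f i (dF i x)) - s₁ • dF i x
      rw [map_sub, hp, hf', map_smul])
  obtain ⟨v, hv0, hv⟩ := hH C N₂ G G dG dG εG
    (fun i => (r i).comp (g i) - s₂ • LinearMap.id) (res_zero hG) hG
    (fun x => by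
      change εG (r 0 (g 0 x) - s₂ • x) = 0
      rw [map_sub, hr0', hg0', hπι₂, map_smul, sub_self])
    (fun i x => by
      change dG i (r (i + 1) (g (i + 1) x) - s₂ • x) = r i (g i (dG i x)) - s₂ • dG i x
      rw [map_sub, hr', hg', map_smul])
  have hcore := hC C κ χ P F G d dF dG f g p r h u v σ τ s₁ s₂ (res_zero hres) hf' hp hpX hr'
    hh0 hh
    (fun x => by
      have h1 : p 0 (f 0 x) - s₁ • x = dF 0 (u 0 x) := hu0 x
      rw [← h1]; abel)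
    (fun i x => by
      have h1 : p (i + 1) (f (i + 1) x) - s₁ • x = dF (i + 1) (u (i + 1) x) + u i (dF i x) :=
        hu i x
      rw [← h1]; abel)
    (fun x => by
      have h1 : r 0 (g 0 x) - s₂ • x = dG 0 (v 0 x) := hv0 x
      rw [← h1]; abel)
    (fun i x => by
      have h1 : r (i + 1) (g (i + 1) x) - s₂ • x = dG (i + 1) (v (i + 1) x) + v i (dG i x) :=
        hv i x
      rw [← h1]; abel)
    (fun i => (hσ i).1) (fun i => (hσ i).2.1) (fun i => (hσ i).2.2) hs₁ hs₂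
  cases i with
  | zero =>
    rw [if_pos rfl, add_zero]
    exact hcore.1 (b₁ 0) (hb₁ F dF εF hF 0)
  | succ k =>
    rw [if_neg (Nat.succ_ne_zero k), Nat.add_sub_cancel]
    exact hcore.2 k (b₁ (k + 1)) (b₂ k) (hb₁ F dF εF hF (k + 1)) (hb₂ G dG εG hG k)

end

theorem main : LIFT → HTPY → EXR → SIGTAU → KILL → CORE → STEP := by
  intro hL hH hE hS hK hC C κ _ _ χ M N₁ N₂ _ _ _ _ _ _ _ _ ι₁ π₁ ι₂ π₂ s₁ s₂ b₁ b₂ hs₁ hs₂
    hπX hπι₁ hXι hπι₂ hb₁ hb₂ P _ _ _ d ε hres i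
  let instC : ∀ i, Module C (P i) := fun i => Module.compHom (P i) (Polynomial.C : C →+* C[X])
  have instT : ∀ i, IsScalarTower C C[X] (P i) := fun i =>
    IsScalarTower.of_algebraMap_smul fun r x => rfl
  exact step_aux hL hH hE hS hK hC χ N₁ N₂ ι₁ π₁ ι₂ π₂ s₁ s₂ b₁ b₂ hs₁ hs₂ hπX hπι₁ hXι hπι₂
    hb₁ hb₂ d ε hres i

end Pool.Agent.W930.BESTEP
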