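import Pool.Agent.W982.CP.Gr

/-!
# Project CP: closed 4-walks through a hexagon arc
-/

set_option autoImplicit false

namespace Pool.Agent.W930.CPCLH

open Pool.Agent.W982.CP

/-- the two ends of a base arc -/
def Base (u v : ℕ) : Prop :=
  (u / 24 = v / 24 ∧ u / 3 ≤ v / 3 + 1 ∧ v / 3 ≤ u / 3 + 1) ∨
    (21 ≤ u % 24 ∧ v % 24 < 3) ∨ (u % 24 < 3 ∧ 21 ≤ v % 24)

lemma base_up (f : ℕ → ℕ) (m o i j : ℕ) (hi : i < 8) (hj : j < 3) :
    Base (vx o i j) (up f m o i j) := by
  unfold Base up vx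
  split_ifs with h
  · subst h
    right; left
    generalize Pool.Agent.H243R3.TP.nxt f (3 * m) o = n
    omega
  · left
    omega

lemma base_symm {u v : ℕ} (h : Base u v) : Base v u := by
  unfold Base at *
  omega

lemma mem_arcs {f : ℕ → ℕ} {sg : ℕ → Bool} {m u v : ℕ} (h : (u, v) ∈ arcs f sg m) :
    Base u v ∨ ∃ c < m, ∃ q < 6, u = hv sg c q ∧ v = hv sg c ((q + 1) % 6) := by
  unfold arcs at h
  rw [List.mem_append] at h
  rcases h with h | h
  · left
    simp only [List.mem_flatMap, List.mem_range, List.mem_cons, List.not_mem_nil, or_false] at h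
    obtain ⟨o, ho, i, hi, j, hj, h | h | h⟩ := h
    · unfold ringA at h
      split_ifs at h with h2
      · rw [Prod.mk.injEq] at h
        obtain ⟨rfl, rfl⟩ := h
        left
        unfold vx
        have : (j + 1) % 3 < 3 := Nat.mod_lt _ (by norm_num)
        omega
      · rw [Prod.mk.injEq] at h
        obtain ⟨rfl, rfl⟩ := h
        left
        unfold vx
        have : (j + 1) % 3 < 3 := Nat.mod_lt _ (by norm_num)
        omega
    · rw [Prod.mk.injEq] at h
      obtain ⟨rfl, rfl⟩ := h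
      exact base_up f m o i j hi hj
    · rw [Prod.mk.injEq] at h
      obtain ⟨rfl, rfl⟩ := h
      exact base_symm (base_up f m o i j hi hj)
  · right
    simp only [List.mem_flatMap, List.mem_range, List.mem_map, Prod.mk.injEq] at h
    obtain ⟨c, hc, q, hq, rfl, rfl⟩ := h
    exact ⟨c, hc, q, hq, rfl, rfl⟩

lemma rho_cases (sg : ℕ → Bool) (o : ℕ) : rho sg o = 4 ∨ rho sg o = 2 := by
  unfold rho
  split_ifs
  · left; rfl
  · right; rfl

/-- coordinates of the vertices of a hexagon -/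
lemma hv_coord (sg : ℕ → Bool) (c q : ℕ) (hq : q < 6) :
    hv sg c q / 24 = 3 * c + q % 3 ∧ 6 ≤ hv sg c q % 24 ∧ hv sg c q % 24 < 15 ∧
      ((9 ≤ hv sg c q % 24 ∧ hv sg c q % 24 < 12) ↔ (2 ≤ q ∧ q ≤ 4)) := by
  have h0 := rho_cases sg (3 * c)
  have h1 := rho_cases sg (3 * c + 1)
  have h2 := rho_cases sg (3 * c + 2)
  generalize hr0 : rho sg (3 * c) = r0 at *
  generalize hr1 : rho sg (3 * c + 1) = r1 at *
  generalize hr2 : rho sg (3 * c + 2) = r2 at *
  unfold hv vx
  rw [hr0, hr1, hr2]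
  have h3 : q = 0 ∨ q = 1 ∨ q = 2 ∨ q = 3 ∨ q = 4 ∨ q = 5 := by omega
  rcases h3 with rfl | rfl | rfl | rfl | rfl | rfl <;> norm_num <;> omega

lemma hv_inj (sg : ℕ → Bool) {c q c' q' : ℕ} (hq : q < 6) (hq' : q' < 6)
    (h : hv sg c q = hv sg c' q') : c = c' ∧ q = q' := by
  obtain ⟨a1, a2, a3, a4⟩ := hv_coord sg c q hq
  obtain ⟨b1, b2, b3, b4⟩ := hv_coord sg c' q' hq'
  rw [h] at a1 a2 a3 a4
  omega

theorem t_CLH : S_CLH := by
  intro f sg m c y x hc h1 h2 h3
  obtain ⟨k01, k02, k03, -⟩ := hv_coord sg c 0 (by norm_num)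
  obtain ⟨k11, k12, k13, -⟩ := hv_coord sg c 1 (by norm_num)
  obtain ⟨k21, k22, k23, -⟩ := hv_coord sg c 2 (by norm_num)
  obtain ⟨k51, k52, k53, -⟩ := hv_coord sg c 5 (by norm_num)
  norm_num at k01 k11 k21 k51
  -- the successor of `k_1`
  have hy : (y / 24 = 3 * c + 1 ∧ 3 ≤ y % 24 ∧ y % 24 < 18) ∨ y = hv sg c 2 := by
    rcases mem_arcs h1 with h | ⟨c', hc', q, hq, hu, hv'⟩
    · left
      unfold Base at h
      omega
    · right
      obtain ⟨e1, e2⟩ := hv_inj sg (by norm_num) hq hu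
      subst e1 e2
      exact hv'
  have hx : (x / 24 = 3 * c ∧ 3 ≤ x % 24 ∧ x % 24 < 18) ∨ x = hv sg c 5 := by
    rcases mem_arcs h3 with h | ⟨c', hc', q, hq, hu, hv'⟩
    · left
      unfold Base at h
      omega
    · right
      obtain ⟨e1, e2⟩ := hv_inj sg (by norm_num) (Nat.mod_lt _ (by norm_num)) hv'
      subst e1
      have e3 : q = 5 := by omega
      subst e3
      exact hu
  rcases hy with hy | hy
  · rcases hx with hx | hx
    · exfalso
      rcases mem_arcs h2 with h | ⟨c', hc', q, hq, hu, hv'⟩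
      · unfold Base at h
        omega
      · obtain ⟨a1, -⟩ := hv_coord sg c' q hq
        obtain ⟨b1, -⟩ := hv_coord sg c' ((q + 1) % 6) (Nat.mod_lt _ (by norm_num))
        rw [← hu] at a1
        rw [← hv'] at b1
        omega
    · subst hx
      rcases mem_arcs h2 with h | ⟨c', hc', q, hq, hu, hv'⟩
      · exfalso
        unfold Base at h
        omega
      · obtain ⟨e1, e2⟩ := hv_inj sg (by norm_num) (Nat.mod_lt _ (by norm_num)) hv'
        subst e1
        have e3 : q = 4 := by omega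
        subst e3
        exact Or.inr (Or.inr ⟨hu, rfl⟩)
  · rcases hx with hx | hx
    · subst hy
      rcases mem_arcs h2 with h | ⟨c', hc', q, hq, hu, hv'⟩
      · exfalso
        unfold Base at h
        omega
      · obtain ⟨e1, e2⟩ := hv_inj sg (by norm_num) hq hu
        subst e1 e2
        exact Or.inl ⟨rfl, hv'⟩
    · exact Or.inr (Or.inl ⟨hy, hx⟩)

end Pool.Agent.W930.CPCLH
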