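import Pool.Agent.W982.CP.Fm

/-!
# Project CP: the transformation of formulas
-/

set_option autoImplicit false

namespace Pool.Agent.W930.CPFORM

open Pool.Agent.NPC Pool.Agent.H243R3.TP Pool.Agent.H243R3.PCP Pool.Agent.NPC.DP
open Pool.Agent.W982.CP

/-- the literal number `k` of the clause `j` is true under `A` -/
def Tr (φ : List Clause) (A : List ℕ) (l : ℕ) : Prop := (vr φ l ∈ A ↔ sn φ l = true)

lemma unsat_eq (φ : List Clause) (A : List ℕ) (P : ℕ → Prop) [DecidablePred P]
    (h : ∀ j < φ.length, (P j ↔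
      ¬ Tr φ A (3 * j) ∧ ¬ Tr φ A (3 * j + 1) ∧ ¬ Tr φ A (3 * j + 2))) :
    unsat φ A = ((Finset.range φ.length).filter P).card := by
  classical
  have h1 := numSat_eq φ A (fun j => ¬ P j) (fun j hj => by
    rw [h j hj]
    constructor
    · intro h2
      by_contra h3
      push Not at h3
      exact h2 ⟨fun h4 => by
          have := h3 0 (by norm_num)
          unfold Tr at h4
          rw [Nat.add_zero] at this
          tauto,
        fun h4 => by
          have := h3 1 (by norm_num)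
          unfold Tr at h4
          tauto,
        fun h4 => by
          have := h3 2 (by norm_num)
          unfold Tr at h4
          tauto⟩
    · rintro ⟨k, hk, h2⟩ ⟨h3, h4, h5⟩
      interval_cases k
      · exact h3 h2
      · exact h4 h2
      · exact h5 h2)
  have h2 := unsat_add φ A
  rw [np_div] at h1
  have h3 := Finset.card_filter_add_card_filter_not (s := Finset.range φ.length) P
  rw [Finset.card_range] at h3
  omega

lemma uns_eq (f : ℕ → ℕ) (sg : ℕ → Bool) (m : ℕ) (val : ℕ → Bool) :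
    uns f sg m val = ((Finset.range m).filter fun c =>
      (val (f (3 * c)) ≠ sg (3 * c) ∧ val (f (3 * c + 1)) ≠ sg (3 * c + 1) ∧
        val (f (3 * c + 2)) ≠ sg (3 * c + 2))).card := by
  unfold uns
  rw [← Pool.Agent.H243R3.TP.countP_range, List.countP_eq_length_filter]

section

variable (φ : List Clause) (val : ℕ → Bool)

/-- the clause `2 i` -/
lemma cl0 (i : ℕ) : (val (fv φ (3 * (2 * i))) ≠ fs φ (3 * (2 * i)) ∧
    val (fv φ (3 * (2 * i) + 1)) ≠ fs φ (3 * (2 * i) + 1) ∧
    val (fv φ (3 * (2 * i) + 2)) ≠ fs φ (3 * (2 * i) + 2)) ↔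
    (val (2 * vr φ (3 * i)) ≠ sn φ (3 * i) ∧ val (2 * vr φ (3 * i + 1)) ≠ sn φ (3 * i + 1) ∧
      val (2 * i + 1) = false) := by
  have e0 : (3 * (2 * i)) % 3 ≠ 2 := by omega
  have e1 : (3 * (2 * i) + 1) % 3 ≠ 2 := by omega
  have e2 : (3 * (2 * i) + 2) % 3 = 2 := by omega
  have t0 : tp (3 * (2 * i)) = 3 * i := by unfold tp; split_ifs <;> omega
  have t1 : tp (3 * (2 * i) + 1) = 3 * i + 1 := by unfold tp; split_ifs <;> omega
  have d2 : (3 * (2 * i) + 2) / 6 = i := by omega
  have m2 : (3 * (2 * i) + 2) / 3 % 2 = 0 := by omega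
  unfold fv fs
  rw [if_neg e0, if_neg e0, if_neg e1, if_neg e1, if_pos e2, if_pos e2, t0, t1, d2, m2]
  simp

/-- the clause `2 i + 1` -/
lemma cl1 (i : ℕ) : (val (fv φ (3 * (2 * i + 1))) ≠ fs φ (3 * (2 * i + 1)) ∧
    val (fv φ (3 * (2 * i + 1) + 1)) ≠ fs φ (3 * (2 * i + 1) + 1) ∧
    val (fv φ (3 * (2 * i + 1) + 2)) ≠ fs φ (3 * (2 * i + 1) + 2)) ↔
    (val (2 * vr φ (3 * i + 2)) ≠ sn φ (3 * i + 2) ∧ val (2 * i + 1) = true) := by
  have e0 : (3 * (2 * i + 1)) % 3 ≠ 2 := by omega
  have e1 : (3 * (2 * i + 1) + 1) % 3 ≠ 2 := by omega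
  have e2 : (3 * (2 * i + 1) + 2) % 3 = 2 := by omega
  have t0 : tp (3 * (2 * i + 1)) = 3 * i + 2 := by unfold tp; split_ifs <;> omega
  have t1 : tp (3 * (2 * i + 1) + 1) = 3 * i + 2 := by unfold tp; split_ifs <;> omega
  have d2 : (3 * (2 * i + 1) + 2) / 6 = i := by omega
  have m2 : (3 * (2 * i + 1) + 2) / 3 % 2 = 1 := by omega
  unfold fv fs
  rw [if_neg e0, if_neg e0, if_neg e1, if_neg e1, if_pos e2, if_pos e2, t0, t1, d2, m2]
  simp

end

lemma parity (φ : List Clause) (o : ℕ) : fv φ o % 2 = if o % 3 = 2 then 1 else 0 := by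
  unfold fv
  split_ifs <;> omega

lemma count_le (φ : List Clause) (Δ : ℕ) (hΔ : 1 ≤ Δ) (h : ∀ x, (occ φ).count x ≤ Δ) (v : ℕ) :
    ((List.range (3 * (2 * φ.length))).filter fun o => decide (fv φ o = v)).length ≤ 2 * Δ := by
  classical
  rw [← List.countP_eq_length_filter, Pool.Agent.H243R3.TP.countP_range]
  rcases Nat.even_or_odd' v with ⟨x, rfl | rfl⟩
  · have h1 := Finset.card_le_mul_card_image (f := tp)
      ((Finset.range (3 * (2 * φ.length))).filter fun o => fv φ o = 2 * x) 2 (by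
        intro l hl
        have h2 : (((Finset.range (3 * (2 * φ.length))).filter
            fun o => fv φ o = 2 * x).filter fun o => tp o = l) ⊆
            {6 * (l / 3) + (if l % 3 = 2 then 3 else l % 3),
              6 * (l / 3) + (if l % 3 = 2 then 4 else l % 3)} := by
          intro o ho
          rw [Finset.mem_filter, Finset.mem_filter] at ho
          obtain ⟨⟨-, ho1⟩, ho2⟩ := ho
          have h3 := parity φ o
          rw [ho1] at h3
          have h4 : o % 3 ≠ 2 := by
            intro h5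
            rw [if_pos h5] at h3
            omega
          rw [Finset.mem_insert, Finset.mem_singleton]
          unfold tp at ho2
          split_ifs at ho2 ⊢ <;> omega
        exact (Finset.card_le_card h2).trans Finset.card_le_two)
    have h3 : (((Finset.range (3 * (2 * φ.length))).filter
        fun o => fv φ o = 2 * x).image tp) ⊆
        ((Finset.range (np φ)).filter fun l => vr φ l = x) := by
      intro l hl
      rw [Finset.mem_image] at hl
      obtain ⟨o, ho, rfl⟩ := hl
      rw [Finset.mem_filter, Finset.mem_range] at ho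
      obtain ⟨ho1, ho2⟩ := ho
      have h4 : o % 3 ≠ 2 := by
        intro h5
        have h3 := parity φ o
        rw [ho2, if_pos h5] at h3
        omega
      rw [Finset.mem_filter, Finset.mem_range]
      refine ⟨?_, ?_⟩
      · unfold tp np
        split_ifs <;> omega
      · unfold fv at ho2
        rw [if_neg h4] at ho2
        omega
    have h4 := Finset.card_le_card h3
    rw [card_occ] at h4
    have h5 := h x
    omega
  · have h2 : ((Finset.range (3 * (2 * φ.length))).filter fun o => fv φ o = 2 * x + 1) ⊆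
        {6 * x + 2, 6 * x + 5} := by
      intro o ho
      rw [Finset.mem_filter] at ho
      obtain ⟨-, ho1⟩ := ho
      have h3 := parity φ o
      rw [ho1] at h3
      have h4 : o % 3 = 2 := by
        by_contra h5
        rw [if_neg h5] at h3
        omega
      unfold fv at ho1
      rw [if_pos h4] at ho1
      rw [Finset.mem_insert, Finset.mem_singleton]
      omega
    have h3 := (Finset.card_le_card h2).trans Finset.card_le_two
    omega

lemma vr_mem (φ : List Clause) {l : ℕ} (hl : l < 3 * φ.length) : vr φ l ∈ occ φ := by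
  rw [occ_eq, List.mem_map]
  exact ⟨l, List.mem_range.2 hl, rfl⟩

lemma tr_iff (φ : List Clause) (A : List ℕ) (val : ℕ → Bool) {l : ℕ}
    (h : vr φ l ∈ A ↔ val (2 * vr φ l) = true) :
    ¬ Tr φ A l ↔ val (2 * vr φ l) ≠ sn φ l := by
  unfold Tr
  rw [h]
  cases val (2 * vr φ l) <;> cases sn φ l <;> simp

lemma sound (φ : List Clause) (val : ℕ → Bool) (A : List ℕ)
    (h : ∀ x ∈ occ φ, x ∈ A ↔ val (2 * x) = true) :
    unsat φ A ≤ uns (fv φ) (fs φ) (2 * φ.length) val := by
  classical
  rw [uns_eq, unsat_eq φ A (fun j => ¬ Tr φ A (3 * j) ∧ ¬ Tr φ A (3 * j + 1) ∧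
    ¬ Tr φ A (3 * j + 2)) (fun j _ => Iff.rfl)]
  refine Finset.card_le_card_of_injOn (fun i => if val (2 * i + 1) = true then 2 * i + 1 else 2 * i)
    ?_ ?_
  · intro i hi
    rw [Finset.mem_coe, Finset.mem_filter, Finset.mem_range] at hi
    obtain ⟨hi, h0, h1, h2⟩ := hi
    rw [tr_iff φ A val (h _ (vr_mem φ (by omega)))] at h0 h1 h2
    rw [Finset.mem_coe, Finset.mem_filter, Finset.mem_range]
    simp only
    split_ifs with h3
    · refine ⟨by omega, ?_⟩
      rw [cl1]
      exact ⟨h2, h3⟩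
    · refine ⟨by omega, ?_⟩
      rw [cl0]
      exact ⟨h0, h1, by simpa using h3⟩
  · intro i _ j _ hij
    simp only at hij
    split_ifs at hij <;> omega

lemma complete (φ : List Clause) (A : List ℕ) :
    ∃ val : ℕ → Bool, uns (fv φ) (fs φ) (2 * φ.length) val ≤ unsat φ A := by
  classical
  set val : ℕ → Bool := fun v => if v % 2 = 0 then decide (v / 2 ∈ A) else
    decide (¬ Tr φ A (3 * (v / 2)) ∧ ¬ Tr φ A (3 * (v / 2) + 1)) with hval
  have hv0 : ∀ x, (x ∈ A ↔ val (2 * x) = true) := by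
    intro x
    simp only [hval]
    rw [if_pos (by omega), show 2 * x / 2 = x by omega]
    simp
  have hv1 : ∀ i, (val (2 * i + 1) = true ↔ (¬ Tr φ A (3 * i) ∧ ¬ Tr φ A (3 * i + 1))) := by
    intro i
    simp only [hval]
    rw [if_neg (by omega), show (2 * i + 1) / 2 = i by omega]
    simp
  refine ⟨val, ?_⟩
  rw [uns_eq, unsat_eq φ A (fun j => ¬ Tr φ A (3 * j) ∧ ¬ Tr φ A (3 * j + 1) ∧
    ¬ Tr φ A (3 * j + 2)) (fun j _ => Iff.rfl)]
  have hodd : ∀ c, (val (fv φ (3 * c)) ≠ fs φ (3 * c) ∧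
      val (fv φ (3 * c + 1)) ≠ fs φ (3 * c + 1) ∧
        val (fv φ (3 * c + 2)) ≠ fs φ (3 * c + 2)) →
      c = 2 * (c / 2) + 1 ∧ ¬ Tr φ A (3 * (c / 2)) ∧ ¬ Tr φ A (3 * (c / 2) + 1) ∧
        ¬ Tr φ A (3 * (c / 2) + 2) := by
    intro c hc
    rcases Nat.even_or_odd' c with ⟨i, rfl | rfl⟩
    · exfalso
      rw [cl0] at hc
      obtain ⟨h0, h1, h2⟩ := hc
      rw [← tr_iff φ A val (hv0 _)] at h0 h1
      have h3 := (hv1 i).2 ⟨h0, h1⟩
      rw [h3] at h2
      exact Bool.noConfusion h2
    · rw [cl1] at hc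
      obtain ⟨h0, h1⟩ := hc
      rw [← tr_iff φ A val (hv0 _)] at h0
      have h3 := (hv1 i).1 h1
      have e : (2 * i + 1) / 2 = i := by omega
      rw [e]
      exact ⟨rfl, h3.1, h3.2, h0⟩
  refine Finset.card_le_card_of_injOn (fun c => c / 2) ?_ ?_
  · intro c hc
    rw [Finset.mem_coe, Finset.mem_filter, Finset.mem_range] at hc ⊢
    have h1 := hodd c hc.2
    exact ⟨by simp only; omega, h1.2⟩
  · intro c hc c' hc' hcc
    rw [Finset.mem_coe, Finset.mem_filter, Finset.mem_range] at hc hc'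
    have h1 := (hodd c hc.2).1
    have h2 := (hodd c' hc'.2).1
    simp only at hcc
    omega

theorem t_FORM : S_FORM := by
  intro φ Δ hΔ h
  exact ⟨fun o _ => parity φ o, count_le φ Δ hΔ h, fun val A hA => sound φ val A hA,
    complete φ⟩

end Pool.Agent.W930.CPFORM
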