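import Pool.Agent.W996.EC.QStm
import Pool.Agent.W803.EC.Val

/-! EC project (helper996), part EC-Q-CNT (helper930): up to constants there are only countably
many polynomials without zeros on `E_T`. -/

set_option autoImplicit false

namespace Pool.Agent.W930.ECCnt

open Pool.Agent.W996.EC Pool.Agent.W803.ECV Filter Topology Polynomial

variable {n : ℕ}

/-- the linear form `m x - c` -/
noncomputable def lf (e : (Fin n → ℤ) × ℂ) : MvPolynomial (Fin n) ℂ :=
  ∑ i, MvPolynomial.C (e.1 i : ℂ) * MvPolynomial.X i - MvPolynomial.C e.2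

theorem eval_lf (e : (Fin n → ℤ) × ℂ) (x : Fin n → ℂ) :
    MvPolynomial.eval x (lf e) = ∑ i, (e.1 i : ℂ) * x i - e.2 := by
  simp [lf]

/-- the same over `ℂ[z][v]` -/
noncomputable def Lf (e : (Fin n → ℤ) × ℂ) : MvPolynomial (Fin n) ℂ[X][X] :=
  ∑ i, MvPolynomial.C (C (C (e.1 i : ℂ))) * MvPolynomial.X i - MvPolynomial.C (C (C e.2))

theorem spec_mul (P Q : MvPolynomial (Fin n) ℂ[X][X]) (z v : ℂ) :
    spec (P * Q) z v = spec P z v * spec Q z v := by
  unfold spec; rw [map_mul]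

theorem spec_add (P Q : MvPolynomial (Fin n) ℂ[X][X]) (z v : ℂ) :
    spec (P + Q) z v = spec P z v + spec Q z v := by
  unfold spec; rw [map_add]

theorem spec_Lf (e : (Fin n → ℤ) × ℂ) (z v : ℂ) : spec (Lf e) z v = lf e := by
  unfold spec Lf lf
  rw [map_sub, map_sum]
  congr 1
  · refine Finset.sum_congr rfl fun i _ => ?_
    rw [map_mul, MvPolynomial.map_C, MvPolynomial.map_X]
    congr 2
    simp [evalEvalRingHom]
  · rw [MvPolynomial.map_C]
    congr 1
    simp [evalEvalRingHom]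

/-- the substitution `x ↦ x - l(x) v0` -/
noncomputable def psi (e : (Fin n → ℤ) × ℂ) (v0 : Fin n → ℤ) :
    MvPolynomial (Fin n) ℂ[X][X] →+* MvPolynomial (Fin n) ℂ[X][X] :=
  MvPolynomial.eval₂Hom MvPolynomial.C
    (fun i => MvPolynomial.X i - MvPolynomial.C (C (C (v0 i : ℂ))) * Lf e)

theorem psi_C (e : (Fin n → ℤ) × ℂ) (v0 : Fin n → ℤ) (a : ℂ[X][X]) :
    psi e v0 (MvPolynomial.C a) = MvPolynomial.C a := by
  simp [psi]

theorem psi_X (e : (Fin n → ℤ) × ℂ) (v0 : Fin n → ℤ) (i : Fin n) :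
    psi e v0 (MvPolynomial.X i) =
      MvPolynomial.X i - MvPolynomial.C (C (C (v0 i : ℂ))) * Lf e := by
  simp [psi]

theorem dvd_sub_psi (e : (Fin n → ℤ) × ℂ) (v0 : Fin n → ℤ) (P : MvPolynomial (Fin n) ℂ[X][X]) :
    Lf e ∣ P - psi e v0 P := by
  have h1 : (Ideal.Quotient.mk (Ideal.span {Lf e})).comp (psi e v0) =
      Ideal.Quotient.mk (Ideal.span {Lf e}) := by
    apply MvPolynomial.ringHom_ext
    · intro r
      rw [RingHom.comp_apply, psi_C]
    · intro i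
      rw [RingHom.comp_apply, psi_X, map_sub, map_mul]
      have h2 : Ideal.Quotient.mk (Ideal.span {Lf e}) (Lf e) = 0 :=
        Ideal.Quotient.eq_zero_iff_mem.2 (Ideal.mem_span_singleton_self _)
      rw [h2, mul_zero, sub_zero]
  have h3 : Ideal.Quotient.mk (Ideal.span {Lf e}) (P - psi e v0 P) = 0 := by
    have h4 := congrArg (fun f => f P) h1
    simp only [RingHom.comp_apply] at h4
    rw [map_sub, h4, sub_self]
  exact Ideal.mem_span_singleton.1 (Ideal.Quotient.eq_zero_iff_mem.1 h3)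

theorem eval_spec_psi (e : (Fin n → ℤ) × ℂ) (v0 : Fin n → ℤ) (P : MvPolynomial (Fin n) ℂ[X][X])
    (z v : ℂ) (x : Fin n → ℂ) :
    MvPolynomial.eval x (spec (psi e v0 P) z v) =
      MvPolynomial.eval (fun i => x i - (v0 i : ℂ) * (∑ j, (e.1 j : ℂ) * x j - e.2))
        (spec P z v) := by
  have h1 : ((MvPolynomial.eval x).comp (MvPolynomial.map (evalEvalRingHom z v))).comp
      (psi e v0) = (MvPolynomial.eval
        (fun i => x i - (v0 i : ℂ) * (∑ j, (e.1 j : ℂ) * x j - e.2))).comp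
          (MvPolynomial.map (evalEvalRingHom z v)) := by
    apply MvPolynomial.ringHom_ext
    · intro r
      simp only [RingHom.comp_apply]
      rw [psi_C, MvPolynomial.map_C, MvPolynomial.eval_C, MvPolynomial.eval_C]
    · intro i
      simp only [RingHom.comp_apply]
      rw [psi_X, map_sub, map_mul, MvPolynomial.map_X, MvPolynomial.eval_X]
      have h2 := spec_Lf e z v
      unfold spec at h2
      rw [h2, MvPolynomial.map_C, map_sub, map_mul, MvPolynomial.eval_C, eval_lf,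
        MvPolynomial.eval_X]
      congr 2
      simp [evalEvalRingHom]
  exact congrArg (fun f => f P) h1

/-- division by a linear form -/
theorem division (T : Set (ℂ × ℂ)) (e : (Fin n → ℤ) × ℂ) (v0 : Fin n → ℤ)
    (hv : ∑ i, e.1 i * v0 i = 1) (P : MvPolynomial (Fin n) ℂ[X][X])
    (hP : ∀ x : Fin n → ℂ, ∑ i, (e.1 i : ℂ) * x i = e.2 → ∀ p ∈ T,
      MvPolynomial.eval x (spec P p.1 p.2) = 0) :
    ∃ P' : MvPolynomial (Fin n) ℂ[X][X], ∀ p ∈ T,
      spec P p.1 p.2 = lf e * spec P' p.1 p.2 := by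
  obtain ⟨P', hP'⟩ := dvd_sub_psi e v0 P
  refine ⟨P', fun p hp => ?_⟩
  have h1 : spec (psi e v0 P) p.1 p.2 = 0 := by
    apply MvPolynomial.funext
    intro x
    rw [eval_spec_psi, map_zero]
    apply hP _ _ p hp
    have hv' : ∑ i, (e.1 i : ℂ) * (v0 i : ℂ) = 1 := by exact_mod_cast hv
    calc ∑ i, (e.1 i : ℂ) * (x i - (v0 i : ℂ) * (∑ j, (e.1 j : ℂ) * x j - e.2))
        = ∑ i, ((e.1 i : ℂ) * x i - (e.1 i : ℂ) * (v0 i : ℂ) * (∑ j, (e.1 j : ℂ) * x j - e.2)) :=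
          Finset.sum_congr rfl fun i _ => by ring
      _ = ∑ i, (e.1 i : ℂ) * x i - 1 * (∑ j, (e.1 j : ℂ) * x j - e.2) := by
          rw [Finset.sum_sub_distrib, ← Finset.sum_mul, hv']
      _ = e.2 := by ring
  have h2 : P = Lf e * P' + psi e v0 P := by rw [← hP']; ring
  rw [h2, spec_add, spec_mul, spec_Lf, h1, add_zero]

theorem totalDegree_lf (e : (Fin n → ℤ) × ℂ) (v0 : Fin n → ℤ)
    (hv : ∑ i, e.1 i * v0 i = 1) : 1 ≤ (lf e).totalDegree := by
  by_contra hc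
  have h0 : (lf e).totalDegree = 0 := by omega
  rw [MvPolynomial.totalDegree_eq_zero_iff_eq_C] at h0
  have h1 := congrArg (MvPolynomial.eval (fun _ => (0 : ℂ))) h0
  have h2 := congrArg (MvPolynomial.eval (fun i => (v0 i : ℂ))) h0
  rw [eval_lf, MvPolynomial.eval_C] at h1 h2
  have hv' : ∑ i, (e.1 i : ℂ) * (v0 i : ℂ) = 1 := by exact_mod_cast hv
  rw [hv', ← h1] at h2
  simp at h2

/-- a bounded local form -/
theorem bdd_form (g : ℂ → ℂ) (l : ℤ) (hl : 0 ≤ l) (G0 : ℂ → ℂ) (hG : ContinuousAt G0 0) (c1 : ℝ)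
    (hg : ∀ w : ℂ, w.re < c1 → g w = Complex.exp (l * w) * G0 (Complex.exp w)) :
    ∃ B c2 : ℝ, ∀ w : ℂ, w.re < c2 → ‖g w‖ ≤ B := by
  have h4 : ∀ᶠ u in 𝓝 (0 : ℂ), ‖G0 u‖ < ‖G0 0‖ + 1 :=
    hG.norm.eventually (gt_mem_nhds (show ‖G0 0‖ < ‖G0 0‖ + 1 by simp))
  obtain ⟨δ, hδ, h5⟩ := Metric.eventually_nhds_iff.1 h4
  refine ⟨‖G0 0‖ + 1, min (min c1 0) (Real.log δ), fun w hw => ?_⟩
  have hwc : w.re < c1 := hw.trans_le ((min_le_left _ _).trans (min_le_left _ _))
  have hw0 : w.re < 0 := hw.trans_le ((min_le_left _ _).trans (min_le_right _ _))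
  have hwδ : Real.exp w.re < δ := by
    have : w.re < Real.log δ := hw.trans_le (min_le_right _ _)
    calc Real.exp w.re < Real.exp (Real.log δ) := Real.exp_lt_exp.2 this
      _ = δ := Real.exp_log hδ
  rw [hg w hwc, norm_mul, Complex.norm_exp]
  have h6 : Real.exp ((l : ℂ) * w).re ≤ 1 := by
    rw [Real.exp_le_one_iff]
    have : ((l : ℂ) * w).re = (l : ℝ) * w.re := by simp
    rw [this]
    have hl' : (0 : ℝ) ≤ l := by exact_mod_cast hl
    exact mul_nonpos_of_nonneg_of_nonpos hl' hw0.le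
  have h7 : ‖G0 (Complex.exp w)‖ < ‖G0 0‖ + 1 := by
    apply h5
    rw [dist_zero_right, Complex.norm_exp]
    exact hwδ
  have h8 : Real.exp ((l : ℂ) * w).re * ‖G0 (Complex.exp w)‖ ≤ 1 * (‖G0 0‖ + 1) :=
    mul_le_mul h6 h7.le (norm_nonneg _) zero_le_one
  linarith

/-- for each `m ≠ 0` only countably many values are omitted by the monomial `R ^ m` -/
theorem omitted (h2 : S_bdd) {F : ℂ[X][X]} {h : ℂ[X]} {R : Fin n → ℂ × ℂ → ℂ}
    (hcov : Cov F h) (hind : Indep (TT F h) R) (m : Fin n → ℤ) (hm0 : m ≠ 0) :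
    {γ : ℂ | ∀ p ∈ TT F h, ∏ i, R i p ^ m i ≠ γ}.Countable := by
  obtain ⟨hreg, hunit, hmul⟩ := hind
  have hRU : ∀ i, RU (TT F h) (R i) := by
    intro i
    obtain ⟨A, B, hAB⟩ := hreg i
    refine ⟨A, B, fun p hp => ?_⟩
    obtain ⟨hB, hg⟩ := hAB p hp
    refine ⟨?_, hB, hg⟩
    intro hA
    exact hunit i p hp (by rw [hg, hA, zero_div])
  obtain ⟨A, B, hAB⟩ := RU.prod Finset.univ (fun i p => R i p ^ m i) (fun i => (hRU i).zpow (m i))
  obtain ⟨K, t, c0, hpl, hbd⟩ := h2 F h hcov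
  have hsub : {γ : ℂ | ∀ p ∈ TT F h, ∏ i, R i p ^ m i ≠ γ} ⊆
      ⋃ k : Fin K, {γ : ℂ | Tendsto (fun x : ℝ => ∏ i, R i (t k x) ^ m i) atBot (𝓝 γ)} := by
    intro γ hγ
    have hD : ∀ p ∈ TT F h, (A - C (C γ) * B).evalEval p.1 p.2 ≠ 0 := by
      intro p hp h0
      rw [evalEval_sub, evalEval_mul, evalEval_C, eval_C] at h0
      obtain ⟨_, hB, hg⟩ := hAB p hp
      apply hγ p hp
      simp only at hg
      rw [hg, div_eq_iff hB]
      exact sub_eq_zero.1 h0
    set D : ℂ[X][X] := A - C (C γ) * B with hDdef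
    have hDe : ∀ p : ℂ × ℂ, D.evalEval p.1 p.2 = A.evalEval p.1 p.2 - γ * B.evalEval p.1 p.2 := by
      intro p
      rw [hDdef, evalEval_sub, evalEval_mul, evalEval_C, eval_C]
    set G : ℂ × ℂ → ℂ := fun p => B.evalEval p.1 p.2 / D.evalEval p.1 p.2 with hG
    have hGreg : Reg (TT F h) G := ⟨B, D, fun p hp => ⟨hD p hp, rfl⟩⟩
    have hmG : ∀ p ∈ TT F h, ∏ i, R i p ^ m i = γ + (G p)⁻¹ := by
      intro p hp
      obtain ⟨_, hB, hg⟩ := hAB p hp
      simp only at hg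
      rw [hg, hG]
      simp only
      rw [inv_div, hDe p]
      field_simp
      ring
    have hunb : ∃ k, ¬ ∃ M c1 : ℝ, ∀ w : ℂ, w.re < c1 → ‖G (t k w)‖ ≤ M := by
      by_contra hcon
      push Not at hcon
      have hcon' : ∀ k, ∃ M c1 : ℝ, ∀ w : ℂ, w.re < c1 → ‖G (t k w)‖ ≤ M := by
        intro k
        by_contra hk
        push Not at hk
        obtain ⟨M, c1, h5⟩ := hcon k
        obtain ⟨w, hw, hw'⟩ := hk M c1
        exact absurd (h5 w hw) (not_le.2 hw')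
      obtain ⟨c, hc⟩ := hbd G hGreg hcon'
      refine hmul m hm0 ⟨γ + c⁻¹, fun p hp => ?_⟩
      rw [hmG p hp, hc p hp]
    obtain ⟨k, hk⟩ := hunb
    refine Set.mem_iUnion.2 ⟨k, ?_⟩
    rcases (hpl k).2.2.2 G hGreg with hz | ⟨l, G0, c1, hG0a, hG00, hc1, hGl⟩
    · exfalso
      apply hk
      refine ⟨0, c0, fun w hw => ?_⟩
      rw [hz w hw, norm_zero]
    · have hl : l < 0 := by
        by_contra hl
        push Not at hl
        exact hk (bdd_form (fun w => G (t k w)) l hl G0 hG0a.continuousAt c1 hGl)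
      show Tendsto (fun x : ℝ => ∏ i, R i (t k x) ^ m i) atBot (𝓝 γ)
      have h5 : Tendsto (fun x : ℝ => γ + Complex.exp ((-l : ℤ) * (x : ℂ)) *
          (G0 (Complex.exp (x : ℂ)))⁻¹) atBot (𝓝 (γ + 0 * (G0 0)⁻¹)) := by
        refine Tendsto.const_add _ (Tendsto.mul ?_ ?_)
        · rw [tendsto_zero_iff_norm_tendsto_zero]
          have h6 : Tendsto (fun x : ℝ => ((-l : ℤ) : ℝ) * x) atBot atBot := by
            apply Tendsto.const_mul_atBot _ tendsto_id
            exact_mod_cast (by omega : 0 < -l)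
          refine (Real.tendsto_exp_atBot.comp h6).congr fun x => ?_
          rw [Complex.norm_exp, Function.comp_apply]
          congr 1
          simp
        · have h6 : Tendsto (fun x : ℝ => Complex.exp (x : ℂ)) atBot (𝓝 0) := by
            rw [tendsto_zero_iff_norm_tendsto_zero]
            refine Real.tendsto_exp_atBot.congr fun x => ?_
            rw [Complex.norm_exp, Complex.ofReal_re]
          exact (hG0a.continuousAt.tendsto.comp h6).inv₀ hG00
      rw [zero_mul, add_zero] at h5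
      refine h5.congr' ?_
      filter_upwards [eventually_lt_atBot c1] with x hx
      have hx' : ((x : ℂ)).re < c1 := by simpa using hx
      rw [hmG _ ((hpl k).1 _ (hx'.trans_le hc1)), hGl _ hx', mul_inv, ← Complex.exp_neg]
      congr 3
      push_cast
      ring
  refine Set.Countable.mono hsub (Set.countable_iUnion fun k => Set.Subsingleton.countable ?_)
  intro a ha b hb
  exact tendsto_nhds_unique ha hb

/-- linear forms without zeros on `E_T` -/
def SS (T : Set (ℂ × ℂ)) (R : Fin n → ℂ × ℂ → ℂ) : Set ((Fin n → ℤ) × ℂ) :=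
  {e | (∃ v0 : Fin n → ℤ, ∑ i, e.1 i * v0 i = 1) ∧
    ∀ q ∈ ET T R, ∑ i, (e.1 i : ℂ) * q.2 i ≠ e.2}

theorem countable_exp (γ : ℂ) : {c : ℂ | Complex.exp c = γ}.Countable := by
  rcases Set.eq_empty_or_nonempty {c : ℂ | Complex.exp c = γ} with h | ⟨c0, hc0⟩
  · rw [h]; exact Set.countable_empty
  · refine Set.Countable.mono ?_ (Set.countable_range
      (fun k : ℤ => c0 + k * (2 * Real.pi * Complex.I)))
    intro c hc
    have hc0' : Complex.exp c0 = γ := hc0
    have hc' : Complex.exp c = γ := hc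
    obtain ⟨k, hk⟩ := Complex.exp_eq_exp_iff_exists_int.1 (hc'.trans hc0'.symm)
    exact ⟨k, hk.symm⟩

theorem countable_SS (h2 : S_bdd) {F : ℂ[X][X]} {h : ℂ[X]} {R : Fin n → ℂ × ℂ → ℂ}
    (hcov : Cov F h) (hind : Indep (TT F h) R) : (SS (TT F h) R).Countable := by
  have hsub : SS (TT F h) R ⊆ ⋃ m : {m : Fin n → ℤ // m ≠ 0},
      (fun c : ℂ => (m.1, c)) '' (⋃ γ ∈ {γ : ℂ | ∀ p ∈ TT F h, ∏ i, R i p ^ m.1 i ≠ γ},
        {c : ℂ | Complex.exp c = γ}) := by
    rintro ⟨m, c⟩ ⟨⟨v0, hv⟩, hmc⟩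
    simp only at hv hmc
    have hm0 : m ≠ 0 := by
      rintro rfl
      simp at hv
    refine Set.mem_iUnion.2 ⟨⟨m, hm0⟩, c, ?_, rfl⟩
    refine Set.mem_iUnion₂.2 ⟨Complex.exp c, ?_, rfl⟩
    intro p hp hpc
    simp only at hpc
    have hx : ∀ i, ∃ x : ℂ, Complex.exp x = R i p := by
      intro i
      exact ⟨Complex.log (R i p), Complex.exp_log (hind.2.1 i p hp)⟩
    choose x hx using hx
    have h4 : Complex.exp (∑ i, (m i : ℂ) * x i) = Complex.exp c := by
      rw [Complex.exp_sum, ← hpc]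
      refine Finset.prod_congr rfl fun i _ => ?_
      rw [Complex.exp_int_mul, hx]
    obtain ⟨k, hk⟩ := Complex.exp_eq_exp_iff_exists_int.1 h4
    refine hmc (p, fun i => x i - v0 i * (k * (2 * Real.pi * Complex.I))) ⟨hp, fun i => ?_⟩ ?_
    · simp only
      rw [Complex.exp_sub, hx]
      have h5 : Complex.exp ((v0 i : ℂ) * (k * (2 * Real.pi * Complex.I))) = 1 := by
        rw [Complex.exp_eq_one_iff]
        exact ⟨v0 i * k, by push_cast; ring⟩
      rw [h5, div_one]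
    · simp only
      have hv' : ∑ i, (m i : ℂ) * (v0 i : ℂ) = 1 := by exact_mod_cast hv
      calc ∑ i, (m i : ℂ) * (x i - v0 i * (k * (2 * Real.pi * Complex.I)))
          = ∑ i, ((m i : ℂ) * x i - (m i : ℂ) * (v0 i : ℂ) * (k * (2 * Real.pi * Complex.I))) :=
            Finset.sum_congr rfl fun i _ => by ring
        _ = ∑ i, (m i : ℂ) * x i - 1 * (k * (2 * Real.pi * Complex.I)) := by
            rw [Finset.sum_sub_distrib, ← Finset.sum_mul, hv']
        _ = c := by rw [hk]; ring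
  refine Set.Countable.mono hsub (Set.countable_iUnion fun m => Set.Countable.image ?_ _)
  exact Set.Countable.biUnion (omitted h2 hcov hind m.1 m.2) (fun γ _ => countable_exp γ)

/-- an integer vector is a multiple of a primitive one -/
theorem primitive (m : Fin n → ℤ) (hm : m ≠ 0) : ∃ (g : ℤ) (m' v0 : Fin n → ℤ), g ≠ 0 ∧
    (∀ i, m i = g * m' i) ∧ ∑ i, m' i * v0 i = 1 := by
  obtain ⟨g, hg⟩ := (IsPrincipalIdealRing.principal (Ideal.span (Set.range m))).principal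
  have h1 : ∀ i, g ∣ m i := by
    intro i
    have : m i ∈ Ideal.span (Set.range m) := Ideal.subset_span ⟨i, rfl⟩
    rw [hg] at this
    exact Ideal.mem_span_singleton.1 this
  choose m' hm' using h1
  have h2 : g ∈ Ideal.span (Set.range m) := by
    rw [hg]; exact Ideal.mem_span_singleton_self g
  obtain ⟨v, hv⟩ := Ideal.mem_span_range_iff_exists_fun.1 h2
  have hg0 : g ≠ 0 := by
    rintro rfl
    apply hm
    funext i
    rw [hm' i, zero_mul]; rfl
  refine ⟨g, m', v, hg0, hm', ?_⟩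
  apply mul_left_cancel₀ hg0
  calc g * ∑ i, m' i * v i = ∑ i, v i * m i := by
        rw [Finset.mul_sum]
        exact Finset.sum_congr rfl fun i _ => by rw [hm' i]; ring
    _ = g * 1 := by rw [hv, mul_one]

theorem exists_log {T : Set (ℂ × ℂ)} {R : Fin n → ℂ × ℂ → ℂ} (hR : ∀ i, ∀ p ∈ T, R i p ≠ 0)
    (p : ℂ × ℂ) (hp : p ∈ T) : ∃ x : Fin n → ℂ, (p, x) ∈ ET T R :=
  ⟨fun i => Complex.log (R i p), hp, fun i => Complex.exp_log (hR i p hp)⟩

/-- the factorisation of a polynomial without zeros on `E_T` -/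
theorem factor (h1 : S_gen) {F : ℂ[X][X]} {h : ℂ[X]} {R : Fin n → ℂ × ℂ → ℂ}
    (hcov : Cov F h) (hind : Indep (TT F h) R) (N : ℕ) :
    ∀ P : MvPolynomial (Fin n) ℂ[X][X], (∀ p ∈ TT F h, (spec P p.1 p.2).totalDegree ≤ N) →
    (∀ e ∈ ET (TT F h) R, MvPolynomial.eval e.2 (spec P e.1.1 e.1.2) ≠ 0) →
    ∃ (U : ℂ[X][X]) (L : List (SS (TT F h) R)), (∀ p ∈ TT F h, U.evalEval p.1 p.2 ≠ 0) ∧
      ∀ p ∈ TT F h, spec P p.1 p.2 =
        MvPolynomial.C (U.evalEval p.1 p.2) * (L.map (fun e => lf e.1)).prod := by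
  induction N with
  | zero =>
    intro P hN hP
    have h4 : ∀ p ∈ TT F h, spec P p.1 p.2 =
        MvPolynomial.C ((MvPolynomial.coeff 0 P).evalEval p.1 p.2) := by
      intro p hp
      have h5 : (spec P p.1 p.2).totalDegree = 0 := Nat.le_zero.1 (hN p hp)
      rw [MvPolynomial.totalDegree_eq_zero_iff_eq_C, coeff_spec] at h5
      exact h5
    refine ⟨MvPolynomial.coeff 0 P, [], fun p hp h0 => ?_, fun p hp => ?_⟩
    · obtain ⟨x, hx⟩ := exists_log hind.2.1 p hp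
      apply hP _ hx
      simp only
      rw [h4 p hp, h0, MvPolynomial.eval_C]
    · rw [List.map_nil, List.prod_nil, mul_one]
      exact h4 p hp
  | succ N ih =>
    intro P hN hP
    by_cases hd : ∃ p ∈ TT F h, 1 ≤ (spec P p.1 p.2).totalDegree
    · by_cases hm : ∀ m : Fin n → ℤ, m ≠ 0 → ∀ c : ℂ, ∃ x : Fin n → ℂ,
          ∑ i, (m i : ℂ) * x i = c ∧ ∃ p ∈ TT F h, MvPolynomial.eval x (spec P p.1 p.2) ≠ 0
      · exfalso
        obtain ⟨p, hp, x, hx, h0⟩ := h1 n F h R hcov hind P hd hm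
        exact hP (p, x) ⟨hp, hx⟩ h0
      · push Not at hm
        obtain ⟨m, hm0, c, hmc⟩ := hm
        obtain ⟨g, m', v0, hg0, hm', hv⟩ := primitive m hm0
        have hgC : (g : ℂ) ≠ 0 := by exact_mod_cast hg0
        have hlin : ∀ x : Fin n → ℂ, ∑ i, (m i : ℂ) * x i = g * ∑ i, (m' i : ℂ) * x i := by
          intro x
          rw [Finset.mul_sum]
          refine Finset.sum_congr rfl fun i _ => ?_
          rw [hm' i]; push_cast; ring
        have hvan : ∀ x : Fin n → ℂ, ∑ i, (m' i : ℂ) * x i = c / g → ∀ p ∈ TT F h,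
            MvPolynomial.eval x (spec P p.1 p.2) = 0 := by
          intro x hx p hp
          refine hmc x ?_ p hp
          rw [hlin, hx]; field_simp
        obtain ⟨P', hP'⟩ := division (TT F h) (m', c / g) v0 hv P hvan
        have hP0 : ∀ e ∈ ET (TT F h) R, MvPolynomial.eval e.2 (spec P' e.1.1 e.1.2) ≠ 0 := by
          intro e he h0
          apply hP e he
          rw [hP' e.1 he.1, map_mul, h0, mul_zero]
        have hN' : ∀ p ∈ TT F h, (spec P' p.1 p.2).totalDegree ≤ N := by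
          intro p hp
          obtain ⟨x, hx⟩ := exists_log hind.2.1 p hp
          have h5 := hP _ hx
          simp only at h5
          have h6 : spec P p.1 p.2 ≠ 0 := by
            intro h0
            rw [h0, map_zero] at h5
            exact h5 rfl
          have h7 := hN p hp
          rw [hP' p hp] at h6 h7
          rw [MvPolynomial.totalDegree_mul_of_isDomain (left_ne_zero_of_mul h6)
            (right_ne_zero_of_mul h6)] at h7
          have h8 := totalDegree_lf (m', c / g) v0 hv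
          omega
        obtain ⟨U, L, hU, hL⟩ := ih P' hN' hP0
        have hmem : ((m', c / g) : (Fin n → ℤ) × ℂ) ∈ SS (TT F h) R := by
          refine ⟨⟨v0, hv⟩, fun q hq h0 => ?_⟩
          exact hP q hq (hvan q.2 h0 q.1 hq.1)
        refine ⟨U, ⟨(m', c / g), hmem⟩ :: L, hU, fun p hp => ?_⟩
        rw [hP' p hp, hL p hp, List.map_cons, List.prod_cons]
        ring
    · push Not at hd
      exact ih P (fun p hp => by have := hd p hp; omega) hP

/-- the order of a unit at a place -/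
def Ord (t : ℂ → ℂ × ℂ) (U : ℂ[X][X]) (l : ℤ) : Prop :=
  ∃ (G : ℂ → ℂ) (c1 : ℝ), AnalyticAt ℂ G 0 ∧ G 0 ≠ 0 ∧
    ∀ w : ℂ, w.re < c1 → U.evalEval (t w).1 (t w).2 = Complex.exp (l * w) * G (Complex.exp w)

theorem exists_ord {T : Set (ℂ × ℂ)} {t : ℂ → ℂ × ℂ} {c0 : ℝ} (ht : IsPlace T t c0) (U : ℂ[X][X])
    (hU : ∀ p ∈ T, U.evalEval p.1 p.2 ≠ 0) : ∃ l, Ord t U l := by
  rcases ht.2.2.2 (fun p => U.evalEval p.1 p.2) ⟨U, 1, fun p _ => by simp⟩ with
    hz | ⟨l, G, c1, a1, a2, _, a4⟩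
  · exfalso
    have h1 : (((c0 - 1 : ℝ) : ℂ)).re < c0 := by rw [Complex.ofReal_re]; linarith
    exact hU _ (ht.1 _ h1) (hz _ h1)
  · exact ⟨l, G, c1, a1, a2, a4⟩

theorem unit_eq {F : ℂ[X][X]} {h : ℂ[X]} (hcov : Cov F h) {K : ℕ} (t : Fin K → ℂ → ℂ × ℂ)
    (hbd : ∀ g, Reg (TT F h) g → (∀ k, ∃ B c1 : ℝ, ∀ w : ℂ, w.re < c1 → ‖g (t k w)‖ ≤ B) →
      ∃ c : ℂ, ∀ p ∈ TT F h, g p = c) (l : Fin K → ℤ) (U U' : ℂ[X][X])
    (hU : ∀ p ∈ TT F h, U.evalEval p.1 p.2 ≠ 0) (hU' : ∀ p ∈ TT F h, U'.evalEval p.1 p.2 ≠ 0)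
    (h1 : ∀ k, Ord (t k) U (l k)) (h2 : ∀ k, Ord (t k) U' (l k)) :
    ∃ c : ℂ, c ≠ 0 ∧ ∀ p ∈ TT F h, U.evalEval p.1 p.2 = c * U'.evalEval p.1 p.2 := by
  obtain ⟨c, hc⟩ := hbd (fun p => U.evalEval p.1 p.2 / U'.evalEval p.1 p.2)
    ⟨U, U', fun p hp => ⟨hU' p hp, rfl⟩⟩ (by
      intro k
      obtain ⟨G, c1, a1, a2, a3⟩ := h1 k
      obtain ⟨G', c1', b1, b2, b3⟩ := h2 k
      refine bdd_form _ 0 le_rfl (fun u => G u / G' u) (a1.continuousAt.div b1.continuousAt b2)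
        (min c1 c1') fun w hw => ?_
      rw [a3 w (hw.trans_le (min_le_left _ _)), b3 w (hw.trans_le (min_le_right _ _)),
        mul_div_mul_left _ _ (Complex.exp_ne_zero _)]
      simp)
  refine ⟨c, ?_, fun p hp => ?_⟩
  · obtain ⟨z, hz⟩ := exists_eval_ne_zero hcov.hne
    obtain ⟨v, hv⟩ := Pool.Agent.W996.EC.exists_pt hcov z hz
    rw [← hc _ hv]
    exact div_ne_zero (hU _ hv) (hU' _ hv)
  · have h3 := hc p hp
    rw [← h3, div_mul_cancel₀ _ (hU' p hp)]

theorem t_cnt (h1 : S_gen) (h2 : S_bdd) (_h3 : S_res) : S_cnt := by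
  intro n F h R hcov hind
  obtain ⟨K, t, c0, hpl, hbd⟩ := h2 F h hcov
  have hS : Countable (SS (TT F h) R) := (countable_SS h2 hcov hind).to_subtype
  let Dat : MvPolynomial (Fin n) ℂ[X][X] → List (SS (TT F h) R) × (Fin K → ℤ) → Prop :=
    fun P d => ∃ U : ℂ[X][X], (∀ p ∈ TT F h, U.evalEval p.1 p.2 ≠ 0) ∧
      (∀ k, Ord (t k) U (d.2 k)) ∧ ∀ p ∈ TT F h, spec P p.1 p.2 =
        MvPolynomial.C (U.evalEval p.1 p.2) * (d.1.map (fun e => lf e.1)).prod
  refine ⟨Set.range (fun d : {d : List (SS (TT F h) R) × (Fin K → ℤ) // ∃ P, Dat P d} =>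
    d.2.choose), Set.countable_range _, fun P hP => ?_⟩
  obtain ⟨U, L, hU, hL⟩ := factor h1 hcov hind P.totalDegree P
    (fun p _ => Finset.sup_mono (MvPolynomial.support_map_subset _ _)) hP
  choose l hl using fun k => exists_ord (hpl k) U hU
  have hd : Dat P (L, l) := ⟨U, hU, hl, hL⟩
  have hex : ∃ P, Dat P (L, l) := ⟨P, hd⟩
  refine ⟨_, ⟨⟨(L, l), hex⟩, rfl⟩, ?_⟩
  obtain ⟨U', hU', hl', hL'⟩ := hex.choose_spec
  obtain ⟨c, hc0, hc⟩ := unit_eq hcov t hbd l U U' hU hU' hl hl'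
  refine ⟨c, hc0, fun p hp => ?_⟩
  rw [hL p hp, hL' p hp, hc p hp, MvPolynomial.C_mul, mul_assoc]

end Pool.Agent.W930.ECCnt
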